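import Pool.Agent.H98.TE.TRP

/-! # [H98 TE SML] Small points of the members of the family (Theorem E, section 2) -/

namespace Pool.Agent.H98.TE

open Finset Polynomial Pool.Agent.H37.TE

variable {n m : ℕ} {F : ℤ[X][X][X]}

/-- the polynomial in `t` of a pair `(x, y)` -/
noncomputable def fib (F : ℤ[X][X][X]) (x y : ℤ) : ℤ[X] := ev3 (X : ℤ[X]) (C x) (C y) F

theorem fib_deg (H : DegF n m F) (x y : ℤ) : (fib F x y).natDegree ≤ m := by
  unfold fib
  rw [ev3_sum H]
  refine natDegree_sum_le_of_forall_le _ _ fun b _ => natDegree_sum_le_of_forall_le _ _ fun a _ =>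
    natDegree_sum_le_of_forall_le _ _ fun j hj => ?_
  rw [mem_range, Nat.lt_succ_iff] at hj
  have e1 : ((cf3 F j a b : ℤ) : ℤ[X]) * (X ^ j * C x ^ a * C y ^ b) =
      C (cf3 F j a b * x ^ a * y ^ b) * X ^ j := by
    rw [map_mul, map_mul, map_pow, map_pow, eq_intCast (C : ℤ →+* ℤ[X]) (cf3 F j a b)]
    ring
  rw [e1]
  exact (natDegree_C_mul_X_pow_le _ _).trans hj

theorem fib_eval (H : DegF n m F) (a x y : ℤ) : (fib F x y).eval a = ev3 a x y F := by
  unfold fib
  rw [ev3_sum H, ev3_sum H, eval_finsetSum]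
  refine sum_congr rfl fun b _ => ?_
  rw [eval_finsetSum]
  refine sum_congr rfl fun a _ => ?_
  rw [eval_finsetSum]
  refine sum_congr rfl fun j _ => ?_
  simp [eval_mul]

/-- for every `x` there are few `y` -/
theorem few_y (H : DegF n m F) (hg : topm n m F ≠ 0)
    (hs : ∀ θ, (topm n m F).eval θ = 0 → (topm n m F).derivative.eval θ ≠ 0) :
    ∃ C : ℝ, 0 ≤ C ∧ ∀ a x y : ℤ, 1 ≤ a → |x| ≤ a → |y| ≤ |x| → ev3 a x y F = 0 →
      ∃ c ∈ insert (0 : ℝ) (topm n m F).roots.toFinset, |(y : ℝ) - c * x| ≤ C := by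
  classical
  obtain ⟨C1, δ0, hC1, hδ0, h1⟩ := near_root _ hg hs
  obtain ⟨C2, hC2, h2⟩ := top_small H
  refine ⟨C2 / δ0 + C1 * C2, by positivity, fun a x y ha hx hy hev => ?_⟩
  rcases eq_or_ne x 0 with h0 | h0
  · refine ⟨0, mem_insert_self _ _, ?_⟩
    rw [h0, abs_zero] at hy
    have : y = 0 := abs_nonpos_iff.1 hy
    rw [this]
    simp only [Int.cast_zero, zero_mul, sub_zero, abs_zero]
    positivity
  · have hxr : (x : ℝ) ≠ 0 := by exact_mod_cast h0
    have hx1 : (1 : ℝ) ≤ |(x : ℝ)| := by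
      have : (1 : ℤ) ≤ |x| := Int.one_le_abs h0
      exact_mod_cast this
    have hxp : (0 : ℝ) < |(x : ℝ)| := by linarith
    have hxa : |(x : ℝ)| ≤ a := by exact_mod_cast hx
    have har : (0 : ℝ) < a := lt_of_lt_of_le hxp hxa
    have hyr : |(y : ℝ)| ≤ |(x : ℝ)| := by exact_mod_cast hy
    have hevr : ev3 (a : ℝ) (x : ℝ) (y : ℝ) F = 0 := by
      have h3 : ev3 (a : ℝ) (x : ℝ) (y : ℝ) F = ((ev3 a x y F : ℤ) : ℝ) := by
        rw [ev3_sum H, ev3_sum H]
        push_cast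
        rfl
      rw [h3, hev, Int.cast_zero]
    have h3 := h2 a x y (1 / |(x : ℝ)|) har hxr hyr hevr
      (one_div_le_one_div_of_le hxp hxa) le_rfl (by rw [div_le_one hxp]; exact hx1)
    have h4 : |(y : ℝ) / x| ≤ 1 := by
      rw [abs_div]
      exact (div_le_one hxp).2 hyr
    by_cases h5 : |(topm n m F).eval ((y : ℝ) / x)| < δ0
    · obtain ⟨θ, hθ, h6⟩ := h1 _ h4 h5
      refine ⟨θ, mem_insert_of_mem hθ, ?_⟩
      have e1 : (y : ℝ) - θ * x = (y / x - θ) * x := by field_simp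
      rw [e1, abs_mul]
      calc |(y : ℝ) / x - θ| * |(x : ℝ)| ≤ (C1 * (C2 * (1 / |(x : ℝ)|))) * |(x : ℝ)| :=
            mul_le_mul_of_nonneg_right (h6.trans (mul_le_mul_of_nonneg_left h3 hC1)) hxp.le
        _ = C1 * C2 := by field_simp
        _ ≤ C2 / δ0 + C1 * C2 := by
            have : 0 ≤ C2 / δ0 := by positivity
            linarith
    · rw [not_lt] at h5
      refine ⟨0, mem_insert_self _ _, ?_⟩
      rw [zero_mul, sub_zero]
      refine hyr.trans ?_
      have h6 := h5.trans h3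
      have h7 : |(x : ℝ)| ≤ C2 / δ0 := by
        rw [le_div_iff₀ hδ0]
        have h8 : δ0 * |(x : ℝ)| ≤ C2 * (1 / |(x : ℝ)|) * |(x : ℝ)| :=
          mul_le_mul_of_nonneg_right h6 hxp.le
        have h9 : C2 * (1 / |(x : ℝ)|) * |(x : ℝ)| = C2 := by field_simp
        rw [h9] at h8
        linarith
      have : 0 ≤ C1 * C2 := by positivity
      linarith

/-- SMALL POINTS: few members of the family have a small integer point which is not common to all -/
theorem small_points (H : DegF n m F) (hg : topm n m F ≠ 0)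
    (hs : ∀ θ, (topm n m F).eval θ = 0 → (topm n m F).derivative.eval θ ≠ 0) :
    ∃ C : ℕ, ∀ X T : ℕ, 1 ≤ X → T ≤ X → ∀ S : Finset ℤ, (∀ a ∈ S, (X : ℤ) ≤ a ∧ ∃ x y : ℤ,
      |y| ≤ |x| ∧ |x| ≤ T ∧ ev3 a x y F = 0 ∧ fib F x y ≠ 0) → S.card ≤ C * (T + 1) := by
  classical
  obtain ⟨C, hC, h1⟩ := few_y H hg hs
  obtain ⟨R, hR⟩ : ∃ R, R = insert (0 : ℝ) (topm n m F).roots.toFinset := ⟨_, rfl⟩
  rw [← hR] at h1
  obtain ⟨C', hC'⟩ : ∃ C' : ℕ, C' = ⌈C⌉₊ := ⟨_, rfl⟩
  have hCC : C ≤ C' := by rw [hC']; exact Nat.le_ceil _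
  refine ⟨2 * (R.card * (2 * C' + 2)) * m, fun X T hX hT S hS => ?_⟩
  obtain ⟨W, hW⟩ : ∃ W : Finset (ℤ × ℤ), W = (Icc (-(T : ℤ)) T).biUnion (fun x => R.biUnion
    (fun c => (Icc (⌈c * x⌉ - C' - 1) (⌈c * x⌉ + C')).image (fun y => (x, y)))) := ⟨_, rfl⟩
  have hWc : W.card ≤ (2 * T + 1) * (R.card * (2 * C' + 2)) := by
    rw [hW]
    have hT : (Icc (-(T : ℤ)) T).card = 2 * T + 1 := by
      rw [Int.card_Icc]
      omega
    rw [← hT]
    refine card_biUnion_le_card_mul _ _ _ fun x _ => card_biUnion_le_card_mul _ _ _ fun c _ => ?_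
    refine card_image_le.trans ?_
    rw [Int.card_Icc]
    omega
  have hsub : S ⊆ W.biUnion (fun p => if fib F p.1 p.2 = 0 then ∅ else
      (fib F p.1 p.2).roots.toFinset) := by
    intro a ha
    obtain ⟨hXa, x, y, hyx, hxT, hev, hfib⟩ := hS a ha
    obtain ⟨c, hc, h2⟩ := h1 a x y (by omega) (by omega) hyx hev
    rw [mem_biUnion]
    refine ⟨(x, y), ?_, ?_⟩
    · rw [hW, mem_biUnion]
      refine ⟨x, by rw [mem_Icc]; exact abs_le.1 hxT, ?_⟩
      rw [mem_biUnion]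
      refine ⟨c, hc, mem_image.2 ⟨y, ?_, rfl⟩⟩
      have h3 := abs_le.1 (h2.trans hCC)
      have h4 := Int.le_ceil (c * x)
      have h5 := Int.ceil_lt_add_one (c * x)
      rw [mem_Icc]
      constructor
      · have : (((⌈c * x⌉ - C' - 1 : ℤ)) : ℝ) ≤ y := by
          push_cast
          linarith [h3.1]
        exact_mod_cast this
      · have : (y : ℝ) ≤ ((⌈c * x⌉ + C' : ℤ) : ℝ) := by
          push_cast
          linarith [h3.2]
        exact_mod_cast this
    · simp only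
      rw [if_neg hfib, Multiset.mem_toFinset, mem_roots hfib, IsRoot.def, fib_eval H]
      exact hev
  have hcard : (W.biUnion (fun p => if fib F p.1 p.2 = 0 then ∅ else
      (fib F p.1 p.2).roots.toFinset)).card ≤ W.card * m := by
    refine card_biUnion_le_card_mul _ _ _ fun p _ => ?_
    split_ifs
    · simp
    · exact (Multiset.toFinset_card_le _).trans ((card_roots' _).trans (fib_deg H _ _))
  calc S.card ≤ W.card * m := (card_le_card hsub).trans hcard
    _ ≤ ((2 * T + 1) * (R.card * (2 * C' + 2))) * m := Nat.mul_le_mul_right _ hWc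
    _ ≤ ((2 * (T + 1)) * (R.card * (2 * C' + 2))) * m :=
        Nat.mul_le_mul_right _ (Nat.mul_le_mul_right _ (by omega))
    _ = _ := by ring

end Pool.Agent.H98.TE
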