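import Pool.Agent.H98.TE.MID
import Pool.Agent.H98.TE.SML
import Pool.Agent.H37.TE.Cor

/-! # [H98 TE SWP] The exchange of `x` and `y` (Theorem E) -/

namespace Pool.Agent.H98.TE

open Finset Polynomial Pool.Agent.H37.TE

theorem refl_refl {R : Type*} [CommRing R] (N : ℕ) (p : R[X]) : reflect N (reflect N p) = p := by
  ext i
  rw [coeff_reflect, coeff_reflect, revAt_invol]

theorem refl_deg {R : Type*} [CommRing R] {N : ℕ} {p : R[X]} (h : p.natDegree ≤ N) :
    (reflect N p).natDegree ≤ N := by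
  rw [natDegree_le_iff_coeff_eq_zero]
  intro i hi
  rw [coeff_reflect]
  by_cases h2 : i ≤ N
  · omega
  · have : revAt N i = i := by
      rw [revAt]
      simp [h2]
    rw [this]
    exact coeff_eq_zero_of_natDegree_lt (lt_of_le_of_lt h hi)

theorem irr_reflect {R : Type*} [CommRing R] [IsDomain R] {p : R[X]} {n : ℕ} (hp : Irreducible p)
    (hn : p.natDegree = n) (h1 : 1 ≤ n) (h0 : p.coeff 0 ≠ 0) : Irreducible (reflect n p) := by
  have hc : (reflect n p).coeff n = p.coeff 0 := by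
    rw [coeff_reflect, revAt_le le_rfl, Nat.sub_self]
  have hc0 : (reflect n p).coeff 0 = p.leadingCoeff := by
    rw [coeff_reflect, revAt_le (Nat.zero_le n), Nat.sub_zero, ← hn]
    rfl
  have hp0 : p ≠ 0 := hp.ne_zero
  have hd : (reflect n p).natDegree = n :=
    natDegree_eq_of_le_of_coeff_ne_zero (refl_deg hn.le) (by rw [hc]; exact h0)
  have hr0 : reflect n p ≠ 0 := by
    intro h
    rw [h, natDegree_zero] at hd
    omega
  constructor
  · intro h
    have := natDegree_eq_zero_of_isUnit h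
    omega
  · intro a b hab
    have ha0 : a ≠ 0 := fun h => hr0 (by rw [hab, h, zero_mul])
    have hb0 : b ≠ 0 := fun h => hr0 (by rw [hab, h, mul_zero])
    have hdab : n = a.natDegree + b.natDegree := by
      rw [← natDegree_mul ha0 hb0, ← hab, hd]
    have h2 : p = reflect a.natDegree a * reflect b.natDegree b := by
      rw [← reflect_mul a b le_rfl le_rfl, ← hab, ← hdab, refl_refl]
    have hab0 : a.coeff 0 * b.coeff 0 ≠ 0 := by
      rw [← mul_coeff_zero, ← hab, hc0]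
      exact leadingCoeff_ne_zero.2 hp0
    have key : ∀ q : R[X], q.coeff 0 ≠ 0 → IsUnit (reflect q.natDegree q) → IsUnit q := by
      intro q hq hu
      obtain ⟨u, hu1, hu2⟩ := Polynomial.isUnit_iff.1 hu
      have h3 : q = C u * X ^ q.natDegree := by
        conv_lhs => rw [← refl_refl q.natDegree q, ← hu2, reflect_C]
      have h4 : q.natDegree = 0 := by
        by_contra h5
        apply hq
        rw [h3, coeff_C_mul, coeff_X_pow, if_neg (Ne.symm h5), mul_zero]
      rw [h3, h4, pow_zero, mul_one]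
      exact (isUnit_C).2 hu1
    rcases hp.isUnit_or_isUnit h2 with h3 | h3
    · exact Or.inl (key a (left_ne_zero_of_mul hab0) h3)
    · exact Or.inr (key b (right_ne_zero_of_mul hab0) h3)

theorem sq_reflect {g : ℚ[X]} {n : ℕ} (hn : 2 ≤ n) (hg : Squarefree g) (hd : n - 1 ≤ g.natDegree)
    (hd' : g.natDegree ≤ n) :
    Squarefree (reflect n g) ∧ n - 1 ≤ (reflect n g).natDegree := by
  have hg0 : g ≠ 0 := hg.ne_zero
  have hr0 : reflect n g ≠ 0 := by
    intro h
    apply hg0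
    rw [← refl_refl n g, h, reflect_zero]
  have hlow : ¬ ((reflect n g).coeff 0 = 0 ∧ (reflect n g).coeff 1 = 0) := by
    rintro ⟨h1, h2⟩
    rw [coeff_reflect, revAt_le (by omega)] at h1 h2
    have h3 : g.coeff g.natDegree ≠ 0 := by
      rw [coeff_natDegree]
      exact leadingCoeff_ne_zero.2 hg0
    have h4 : g.natDegree = n ∨ g.natDegree = n - 1 := by omega
    rcases h4 with h4 | h4
    · rw [h4] at h3
      exact h3 h1
    · rw [h4] at h3
      exact h3 h2
  constructor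
  · intro a ⟨b, hb⟩
    have hab0 : a * a * b ≠ 0 := by rw [← hb]; exact hr0
    have ha0 : a ≠ 0 := by
      rintro rfl
      simp at hab0
    have hb0 : b ≠ 0 := by
      rintro rfl
      simp at hab0
    have hdeg : a.natDegree + a.natDegree + b.natDegree = (reflect n g).natDegree := by
      rw [hb, natDegree_mul (mul_ne_zero ha0 ha0) hb0, natDegree_mul ha0 ha0]
    have hle : (reflect n g).natDegree ≤ n := refl_deg hd'
    obtain ⟨k, hk⟩ : ∃ k, n = a.natDegree + a.natDegree + k :=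
      ⟨n - (a.natDegree + a.natDegree), by omega⟩
    have h1 : g = reflect a.natDegree a * reflect a.natDegree a * reflect k b := by
      rw [← reflect_mul a a le_rfl le_rfl, ← reflect_mul (a * a) b natDegree_mul_le (by omega),
        ← hb, ← hk, refl_refl]
    have h2 : IsUnit (reflect a.natDegree a) := hg _ ⟨_, h1⟩
    obtain ⟨u, hu1, hu2⟩ := Polynomial.isUnit_iff.1 h2
    have h3 : a = C u * X ^ a.natDegree := by
      conv_lhs => rw [← refl_refl a.natDegree a, ← hu2, reflect_C]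
    by_cases h4 : a.natDegree = 0
    · rw [h3, h4, pow_zero, mul_one]
      exact (isUnit_C).2 hu1
    · exfalso
      apply hlow
      have hX : X ∣ a := by
        rw [h3]
        exact Dvd.dvd.mul_left (dvd_pow_self X h4) _
      have hX2 : X ^ 2 ∣ reflect n g := by
        rw [hb, sq]
        exact Dvd.dvd.mul_right (mul_dvd_mul hX hX) _
      rw [X_pow_dvd_iff] at hX2
      exact ⟨hX2 0 (by norm_num), hX2 1 (by norm_num)⟩
  · by_contra h
    rw [not_le] at h
    have h1 : g.coeff 0 = 0 := by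
      have := coeff_eq_zero_of_natDegree_lt (p := reflect n g) (n := n) (by omega)
      rwa [coeff_reflect, revAt_le le_rfl, Nat.sub_self] at this
    have h2 : g.coeff 1 = 0 := by
      have := coeff_eq_zero_of_natDegree_lt h
      rwa [coeff_reflect, revAt_le (by omega), show n - (n - 1) = 1 by omega] at this
    have h3 : X ^ 2 ∣ g := by
      rw [X_pow_dvd_iff]
      intro d hd
      interval_cases d
      · exact h1
      · exact h2
    rw [sq] at h3
    exact not_isUnit_X (hg X h3)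

/-- the form of degree `n` of the coefficient of `t^m`, at `(1, Z)` -/
noncomputable def topq (n m : ℕ) (F : ℤ[X][X][X]) : ℚ[X] :=
  ∑ b ∈ range (n + 1), C ((cf3 F m (n - b) b : ℤ) : ℚ) * X ^ b

theorem topq_coeff (n m : ℕ) (F : ℤ[X][X][X]) (b : ℕ) :
    (topq n m F).coeff b = if b ≤ n then ((cf3 F m (n - b) b : ℤ) : ℚ) else 0 := by
  unfold topq
  rw [finsetSum_coeff]
  simp only [coeff_C_mul, coeff_X_pow, mul_ite, mul_one, mul_zero]
  rw [Finset.sum_ite_eq]
  simp only [mem_range]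
  split_ifs <;> first | rfl | omega

theorem topq_deg (n m : ℕ) (F : ℤ[X][X][X]) : (topq n m F).natDegree ≤ n := by
  rw [natDegree_le_iff_coeff_eq_zero]
  intro b hb
  rw [topq_coeff, if_neg (by omega)]

theorem topm_eq (n m : ℕ) (F : ℤ[X][X][X]) :
    topm n m F = (topq n m F).map (algebraMap ℚ ℝ) := by
  unfold topm topq
  rw [Polynomial.map_sum]
  refine sum_congr rfl fun b _ => ?_
  rw [Polynomial.map_mul, Polynomial.map_pow, Polynomial.map_X, Polynomial.map_C]
  simp

theorem topm_simple {n m : ℕ} {F : ℤ[X][X][X]} (hsq : Squarefree (topq n m F)) :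
    topm n m F ≠ 0 ∧ ∀ θ, (topm n m F).eval θ = 0 → (topm n m F).derivative.eval θ ≠ 0 := by
  rw [topm_eq]
  constructor
  · rw [Ne, Polynomial.map_eq_zero]
    exact hsq.ne_zero
  · intro θ hθ
    have h1 : (topq n m F).Separable := PerfectField.separable_iff_squarefree.2 hsq
    rw [eval_map] at hθ
    rw [derivative_map, eval_map]
    exact h1.eval₂_derivative_ne_zero _ hθ

variable {n m : ℕ} {F : ℤ[X][X][X]}

/-- the exchange of `x` and `y` -/
noncomputable def swF (F : ℤ[X][X][X]) : ℤ[X][X][X] := Bivariate.swap F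

theorem swF_coeff (F : ℤ[X][X][X]) (i j : ℕ) : ((swF F).coeff i).coeff j = (F.coeff j).coeff i :=
  swap_coeff F i j

theorem swF_DegF (H : DegF n m F) : DegF n m (swF F) :=
  ⟨fun a b h => by rw [swF_coeff]; exact H.tot b a (by omega),
    fun a b => by rw [swF_coeff]; exact H.deg b a⟩

theorem swF_ev3 (H : DegF n m F) {S : Type*} [CommRing S] (t x y : S) :
    ev3 t x y (swF F) = ev3 t y x F := by
  rw [Pool.Agent.H37.TE.ev3_sum t x y (swF F) n (swF_DegF H).tot,
    Pool.Agent.H37.TE.ev3_sum t y x F n H.tot, sum_comm]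
  refine sum_congr rfl fun b _ => sum_congr rfl fun a _ => ?_
  rw [swF_coeff]
  ring

theorem swF_topq (n m : ℕ) (F : ℤ[X][X][X]) : topq n m (swF F) = reflect n (topq n m F) := by
  ext b
  rw [coeff_reflect]
  by_cases hb : b ≤ n
  · rw [revAt_le hb, topq_coeff, topq_coeff, if_pos hb, if_pos (Nat.sub_le n b), cf3, cf3,
      swF_coeff, show n - (n - b) = b by omega]
  · have : revAt n b = b := by
      rw [revAt]
      simp [hb]
    rw [this, topq_coeff, topq_coeff, if_neg hb, if_neg hb]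

theorem swF_topf (n : ℕ) (F : ℤ[X][X][X]) : topf n (swF F) = reflect n (topf n F) := by
  ext1 b
  rw [coeff_reflect]
  by_cases hb : b ≤ n
  · rw [revAt_le hb, tpf_coeff, tpf_coeff, if_pos hb, if_pos (Nat.sub_le n b),
      swF_coeff, show n - (n - b) = b by omega]
  · have : revAt n b = b := by
      rw [revAt]
      simp [hb]
    rw [this, tpf_coeff, tpf_coeff, if_neg hb, if_neg hb]

theorem map_reflect {R S : Type*} [CommRing R] [CommRing S] (f : R →+* S) (n : ℕ) (p : R[X]) :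
    (reflect n p).map f = reflect n (p.map f) := by
  ext i
  rw [coeff_map, coeff_reflect, coeff_reflect, coeff_map]

/-- the hypotheses of Theorem E -/
structure HypE (n m : ℕ) (F : ℤ[X][X][X]) : Prop where
  H : DegF n m F
  lead : (F.coeff n).coeff 0 ≠ 0
  irr : Irreducible ((topf n F).map (mapRingHom (Int.castRingHom ℂ)))
  sq : Squarefree (topq n m F)
  dq : n - 1 ≤ (topq n m F).natDegree

theorem HypE.swap (hn : 2 ≤ n) (h : HypE n m F) : HypE n m (swF F) := by
  obtain ⟨p, hp⟩ : ∃ p, p = (topf n F).map (mapRingHom (Int.castRingHom ℂ)) := ⟨_, rfl⟩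
  have hinj : Function.Injective (mapRingHom (Int.castRingHom ℂ)) :=
    map_injective _ (RingHom.injective_int _)
  have hpc : ∀ b, p.coeff b = if b ≤ n then
      mapRingHom (Int.castRingHom ℂ) ((F.coeff b).coeff (n - b)) else 0 := by
    intro b
    rw [hp, coeff_map, tpf_coeff]
    split_ifs
    · rfl
    · rw [map_zero]
  have hd : p.natDegree = n := by
    refine natDegree_eq_of_le_of_coeff_ne_zero ?_ ?_
    · rw [natDegree_le_iff_coeff_eq_zero]
      intro b hb
      rw [hpc, if_neg (by omega)]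
    · rw [hpc, if_pos le_rfl, Nat.sub_self]
      exact (map_ne_zero_iff _ hinj).2 h.lead
  have hirr : Irreducible p := by rw [hp]; exact h.irr
  have h0 : p.coeff 0 ≠ 0 := by
    intro h0
    obtain ⟨q, hq⟩ := X_dvd_iff.2 h0
    have hq0 : q ≠ 0 := by
      rintro rfl
      rw [mul_zero] at hq
      exact hirr.ne_zero hq
    rcases hirr.isUnit_or_isUnit hq with h1 | h1
    · exact not_isUnit_X h1
    · have h2 := natDegree_eq_zero_of_isUnit h1
      rw [hq, natDegree_mul X_ne_zero hq0, natDegree_X, h2] at hd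
      omega
  have hsq := sq_reflect hn h.sq h.dq (topq_deg n m F)
  refine ⟨swF_DegF h.H, ?_, ?_, ?_, ?_⟩
  · rw [swF_coeff]
    intro h1
    apply h0
    rw [hpc, if_pos (Nat.zero_le n), Nat.sub_zero, h1, map_zero]
  · rw [swF_topf, map_reflect, ← hp]
    exact irr_reflect hirr hd (by omega) h0
  · rw [swF_topq]
    exact hsq.1
  · rw [swF_topq]
    exact hsq.2

theorem swF_fib (H : DegF n m F) (x y : ℤ) : fib (swF F) x y = fib F y x := by
  unfold fib
  exact swF_ev3 H _ _ _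

theorem swF_Sol (H : DegF n m F) (a x y : ℤ) : Sol (swF F) a x y ↔ Sol F a y x := by
  unfold Sol
  constructor
  · rintro ⟨r1, r2, h1, h2, h3⟩
    exact ⟨r2, r1, by rw [← swF_ev3 H]; exact h1, h3, h2⟩
  · rintro ⟨r1, r2, h1, h2, h3⟩
    exact ⟨r2, r1, by rw [swF_ev3 H]; exact h1, h3, h2⟩

/-- a pair which is common to all members is a constant solution -/
theorem sol_of_fib (H : DegF n m F) {a x y : ℤ} (h : fib F x y = 0) : Sol F a x y := by
  refine ⟨C (x : ℚ), C (y : ℚ), ?_, by rw [eval_C], by rw [eval_C]⟩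
  unfold fib at h
  have h1 := congrArg (Polynomial.map (Int.castRingHom ℚ)) h
  rw [Pool.Agent.H98.TE.ev3_sum H, Polynomial.map_zero] at h1
  rw [Pool.Agent.H98.TE.ev3_sum H, ← h1]
  simp only [Polynomial.map_sum, Polynomial.map_mul, Polynomial.map_pow, Polynomial.map_intCast,
    Polynomial.map_X, eq_intCast, map_intCast]

/-- SMALL POINTS, both halves -/
theorem small_all (hn : 2 ≤ n) (h : HypE n m F) :
    ∃ C : ℕ, ∀ X T : ℕ, 1 ≤ X → T ≤ X → ∀ S : Finset ℤ, (∀ a ∈ S, (X : ℤ) ≤ a ∧ ∃ x y : ℤ,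
      |x| ≤ T ∧ |y| ≤ T ∧ ev3 a x y F = 0 ∧ ¬ Sol F a x y) → S.card ≤ C * (T + 1) := by
  classical
  have h' := h.swap hn
  obtain ⟨C1, h1⟩ := small_points h.H (topm_simple h.sq).1 (topm_simple h.sq).2
  obtain ⟨C2, h2⟩ := small_points h'.H (topm_simple h'.sq).1 (topm_simple h'.sq).2
  refine ⟨C1 + C2, fun X T hX hT S hS => ?_⟩
  obtain ⟨S1, hS1⟩ : ∃ S1, S1 = S.filter (fun a : ℤ => ∃ x y : ℤ, |y| ≤ |x| ∧ |x| ≤ T ∧
    ev3 a x y F = 0 ∧ fib F x y ≠ 0) := ⟨_, rfl⟩
  obtain ⟨S2, hS2⟩ : ∃ S2, S2 = S.filter (fun a : ℤ => ∃ x y : ℤ, |y| ≤ |x| ∧ |x| ≤ T ∧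
    ev3 a x y (swF F) = 0 ∧ fib (swF F) x y ≠ 0) := ⟨_, rfl⟩
  have hsub : S ⊆ S1 ∪ S2 := by
    intro a ha
    obtain ⟨hXa, x, y, hx, hy, hev, hsol⟩ := hS a ha
    have hfib : fib F x y ≠ 0 := fun h0 => hsol (sol_of_fib h.H h0)
    rw [mem_union]
    rcases le_total |y| |x| with hyx | hyx
    · left
      rw [hS1, mem_filter]
      exact ⟨ha, x, y, hyx, hx, hev, hfib⟩
    · right
      rw [hS2, mem_filter]
      exact ⟨ha, y, x, hyx, hy, by rw [swF_ev3 h.H]; exact hev, by rw [swF_fib h.H]; exact hfib⟩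
  have e1 := h1 X T hX hT S1 fun a ha => by
    rw [hS1, mem_filter] at ha
    exact ⟨(hS a ha.1).1, ha.2⟩
  have e2 := h2 X T hX hT S2 fun a ha => by
    rw [hS2, mem_filter] at ha
    exact ⟨(hS a ha.1).1, ha.2⟩
  have e3 := (card_le_card hsub).trans (card_union_le _ _)
  rw [add_mul]
  omega

/-- MIDDLE POINTS, both halves -/
theorem middle_all (κ k1 : ℕ) (hn : 3 ≤ n) (h : HypE n m F) :
    ∃ c A0 : ℕ, ∀ A U P : ℕ, A0 ≤ A → U ^ 20 ≤ A → A ≤ U ^ k1 → Cpl U P → ∀ S : Finset ℤ,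
      (∀ u ∈ S, 0 ≤ u ∧ u ≤ U ∧ ∃ x y : ℤ, (((A ^ 19 : ℕ) : ℤ) ≤ |x| ^ 20 ∨
        ((A ^ 19 : ℕ) : ℤ) ≤ |y| ^ 20) ∧ |x| ≤ ((A ^ κ : ℕ) : ℤ) ∧ |y| ≤ ((A ^ κ : ℕ) : ℤ) ∧
        ev3 (A + u) x y F = 0 ∧ ¬ Sol F (A + u) x y) → S.card ≤ c * P := by
  classical
  have h' := h.swap (by omega)
  obtain ⟨c1, A1, h1⟩ := middle_half n m κ k1 hn F h.H (topm_simple h.sq).1 (topm_simple h.sq).2
    h.lead h.irr
  obtain ⟨c2, A2, h2⟩ := middle_half n m κ k1 hn (swF F) h'.H (topm_simple h'.sq).1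
    (topm_simple h'.sq).2 h'.lead h'.irr
  refine ⟨c1 + c2, A1 + A2, fun A U P hA hU hAU hCpl S hS => ?_⟩
  obtain ⟨S1, hS1⟩ : ∃ S1, S1 = S.filter (fun u : ℤ => ∃ x y : ℤ, |y| ≤ |x| ∧
    ((A ^ 19 : ℕ) : ℤ) ≤ |x| ^ 20 ∧ |x| ≤ ((A ^ κ : ℕ) : ℤ) ∧ ev3 (A + u) x y F = 0 ∧
    ¬ Sol F (A + u) x y) := ⟨_, rfl⟩
  obtain ⟨S2, hS2⟩ : ∃ S2, S2 = S.filter (fun u : ℤ => ∃ x y : ℤ, |y| ≤ |x| ∧
    ((A ^ 19 : ℕ) : ℤ) ≤ |x| ^ 20 ∧ |x| ≤ ((A ^ κ : ℕ) : ℤ) ∧ ev3 (A + u) x y (swF F) = 0 ∧
    ¬ Sol (swF F) (A + u) x y) := ⟨_, rfl⟩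
  have hsub : S ⊆ S1 ∪ S2 := by
    intro u hu
    obtain ⟨hu0, huU, x, y, hor, hx, hy, hev, hsol⟩ := hS u hu
    rw [mem_union]
    rcases le_total |y| |x| with hyx | hyx
    · left
      rw [hS1, mem_filter]
      refine ⟨hu, x, y, hyx, ?_, hx, hev, hsol⟩
      rcases hor with h3 | h3
      · exact h3
      · exact h3.trans (pow_le_pow_left₀ (abs_nonneg _) hyx 20)
    · right
      rw [hS2, mem_filter]
      refine ⟨hu, y, x, hyx, ?_, hy, ?_, ?_⟩
      · rcases hor with h3 | h3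
        · exact h3.trans (pow_le_pow_left₀ (abs_nonneg _) hyx 20)
        · exact h3
      · rw [swF_ev3 h.H]
        exact hev
      · rw [swF_Sol h.H]
        exact hsol
  have e1 := h1 A U P (by omega) hU hAU hCpl S1 fun u hu => by
    rw [hS1, mem_filter] at hu
    exact ⟨(hS u hu.1).1, (hS u hu.1).2.1, hu.2⟩
  have e2 := h2 A U P (by omega) hU hAU hCpl S2 fun u hu => by
    rw [hS2, mem_filter] at hu
    exact ⟨(hS u hu.1).1, (hS u hu.1).2.1, hu.2⟩
  have e3 := (card_le_card hsub).trans (card_union_le _ _)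
  rw [add_mul]
  omega

end Pool.Agent.H98.TE
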