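import Pool.Agent.H98.TE.SWP

/-! # [H98 TE PP] The points of polynomial size (Theorem E, sections 2, 3, 7) -/

namespace Pool.Agent.H98.TE

open Finset Polynomial Pool.Agent.H37.TE

variable {n m : ℕ} {F : ℤ[X][X][X]}

/-- the parameters of the windows -/
theorem win_par {X : ℕ} (hX : 4 ^ 20 ≤ X) : ∃ (v : ℝ) (U P T : ℕ), 4 ≤ v ∧ (X : ℝ) = v ^ 20 ∧
    v ^ 19 * v ^ (5 / 8 : ℝ) = (X : ℝ) ^ (157 / 160 : ℝ) ∧ 1 ≤ v ^ (5 / 8 : ℝ) ∧
    U ^ 20 ≤ X ∧ 2 * X ≤ U ^ 41 ∧ Cpl U P ∧ (P : ℝ) ≤ 2 * v ^ (5 / 8 : ℝ) ∧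
    ((X / U + 1 : ℕ) : ℝ) ≤ 3 * v ^ 19 ∧ T ≤ X ∧ ((T + 1 : ℕ) : ℝ) ≤ 3 * v ^ 19 ∧
    ∀ x : ℤ, |x| ^ 20 < (((2 * X) ^ 19 : ℕ) : ℤ) → |x| ≤ T := by
  have hX1 : (1 : ℝ) ≤ X := by
    have : 1 ≤ X := le_trans (Nat.one_le_pow _ _ (by norm_num)) hX
    exact_mod_cast this
  have hX0 : (0 : ℝ) < X := by linarith
  obtain ⟨v, hv⟩ : ∃ v : ℝ, v = (X : ℝ) ^ (((20 : ℕ) : ℝ)⁻¹) := ⟨_, rfl⟩
  have hv0 : 0 < v := by rw [hv]; positivity
  have hvX : (X : ℝ) = v ^ 20 := by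
    rw [hv, Real.rpow_inv_natCast_pow hX0.le (by norm_num)]
  have hv4 : 4 ≤ v := by
    rw [← pow_le_pow_iff_left₀ (by norm_num) hv0.le (by norm_num : (20 : ℕ) ≠ 0), ← hvX]
    exact_mod_cast hX
  have h58 : 1 ≤ v ^ (5 / 8 : ℝ) := Real.one_le_rpow (by linarith) (by norm_num)
  obtain ⟨U, hU⟩ : ∃ U : ℕ, U = ⌊v⌋₊ := ⟨_, rfl⟩
  have hUv : (U : ℝ) ≤ v := by rw [hU]; exact Nat.floor_le hv0.le
  have hUv' : v / 2 ≤ U := by
    have := Nat.lt_floor_add_one v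
    rw [← hU] at this
    linarith
  have hU0 : (0 : ℝ) < U := by linarith
  have hU2 : 2 ≤ U := by
    have : (2 : ℝ) ≤ U := by linarith
    exact_mod_cast this
  obtain ⟨P, hP⟩ : ∃ P : ℕ, P = ⌈(U : ℝ) ^ (5 / 8 : ℝ)⌉₊ := ⟨_, rfl⟩
  obtain ⟨t, ht⟩ : ∃ t : ℝ, t = (((2 * X : ℕ) : ℝ) ^ 19) ^ (((20 : ℕ) : ℝ)⁻¹) := ⟨_, rfl⟩
  have ht0 : 0 ≤ t := by rw [ht]; positivity
  have ht20 : t ^ 20 = ((2 * X : ℕ) : ℝ) ^ 19 := by
    rw [ht, Real.rpow_inv_natCast_pow (by positivity) (by norm_num)]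
  have htX : t ≤ X := by
    rw [← pow_le_pow_iff_left₀ ht0 hX0.le (by norm_num : (20 : ℕ) ≠ 0), ht20]
    push_cast
    rw [mul_pow, pow_succ (X : ℝ) 19, mul_comm ((X : ℝ) ^ 19)]
    refine mul_le_mul_of_nonneg_right ?_ (by positivity)
    have : (4 : ℝ) ^ 20 ≤ X := by exact_mod_cast hX
    refine le_trans ?_ this
    norm_num
  have htv : t ≤ 2 * v ^ 19 := by
    rw [← pow_le_pow_iff_left₀ ht0 (by positivity) (by norm_num : (20 : ℕ) ≠ 0), ht20]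
    push_cast
    rw [hvX, mul_pow, mul_pow, ← pow_mul, ← pow_mul]
    have : (v : ℝ) ^ (20 * 19) = v ^ (19 * 20) := by norm_num
    rw [this]
    refine mul_le_mul_of_nonneg_right ?_ (by positivity)
    norm_num
  have hv19 : 1 ≤ v ^ 19 := one_le_pow₀ (by linarith)
  refine ⟨v, U, P, ⌊t⌋₊, hv4, hvX, ?_, h58, ?_, ?_, ⟨by omega, ?_⟩, ?_, ?_, ?_, ?_, ?_⟩
  · rw [hv, ← Real.rpow_natCast, ← Real.rpow_mul hX0.le, ← Real.rpow_mul hX0.le,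
      ← Real.rpow_add hX0]
    norm_num
  · have : ((U : ℝ)) ^ 20 ≤ X := by
      rw [hvX]
      exact pow_le_pow_left₀ hU0.le hUv 20
    exact_mod_cast this
  · have h1 : (2 * X : ℝ) ≤ (U : ℝ) ^ 41 := by
      have h2 : (X : ℝ) ≤ (2 * U) ^ 20 := by
        rw [hvX]
        exact pow_le_pow_left₀ hv0.le (by linarith) 20
      have h3 : (2 : ℝ) ^ 21 ≤ (U : ℝ) ^ 21 :=
        pow_le_pow_left₀ (by norm_num) (by exact_mod_cast hU2) 21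
      calc (2 * X : ℝ) ≤ 2 * (2 * U) ^ 20 := by linarith
        _ = 2 ^ 21 * (U : ℝ) ^ 20 := by ring
        _ ≤ (U : ℝ) ^ 21 * (U : ℝ) ^ 20 := mul_le_mul_of_nonneg_right h3 (by positivity)
        _ = _ := by ring
    exact_mod_cast h1
  · have h1 : (U : ℝ) ^ 5 ≤ (P : ℝ) ^ 8 := by
      have h2 : (U : ℝ) ^ (5 / 8 : ℝ) ≤ P := by rw [hP]; exact Nat.le_ceil _
      have h3 : ((U : ℝ) ^ (5 / 8 : ℝ)) ^ 8 = (U : ℝ) ^ 5 := by
        rw [← Real.rpow_natCast, ← Real.rpow_mul hU0.le, ← Real.rpow_natCast]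
        norm_num
      rw [← h3]
      exact pow_le_pow_left₀ (by positivity) h2 8
    exact_mod_cast h1
  · have h1 : (P : ℝ) ≤ (U : ℝ) ^ (5 / 8 : ℝ) + 1 := by
      rw [hP]
      exact (Nat.ceil_lt_add_one (by positivity)).le
    have h2 : (U : ℝ) ^ (5 / 8 : ℝ) ≤ v ^ (5 / 8 : ℝ) :=
      Real.rpow_le_rpow hU0.le hUv (by norm_num)
    linarith
  · have h1 : ((X / U : ℕ) : ℝ) ≤ X / U := Nat.cast_div_le
    have h2 : (X : ℝ) / U ≤ 2 * v ^ 19 := by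
      rw [div_le_iff₀ hU0, hvX]
      calc v ^ 20 = 2 * v ^ 19 * (v / 2) := by ring
        _ ≤ 2 * v ^ 19 * U := mul_le_mul_of_nonneg_left hUv' (by positivity)
    push_cast
    linarith
  · have : ((⌊t⌋₊ : ℕ) : ℝ) ≤ X := (Nat.floor_le ht0).trans htX
    exact_mod_cast this
  · have := Nat.floor_le ht0
    push_cast
    linarith
  · intro x hx
    have h1 : |(x : ℝ)| ^ 20 < t ^ 20 := by
      rw [ht20]
      have h2 : ((|x| ^ 20 : ℤ) : ℝ) < (((((2 * X) ^ 19 : ℕ) : ℤ)) : ℝ) := by exact_mod_cast hx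
      push_cast at h2
      push_cast
      exact h2
    have h2 : |(x : ℝ)| < t := lt_of_pow_lt_pow_left₀ 20 ht0 h1
    have h3 : ((x.natAbs : ℕ) : ℝ) ≤ t := by
      rw [Nat.cast_natAbs]
      push_cast
      exact h2.le
    have h4 := Nat.le_floor h3
    rw [Int.abs_eq_natAbs]
    exact_mod_cast h4

/-- POINTS OF POLYNOMIAL SIZE: for all but `C X^(157/160)` of the `a` in `[X, 2X]` they are the
values of polynomial solutions -/
theorem poly_points (κ : ℕ) (hn : 3 ≤ n) (h : HypE n m F) :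
    ∃ C : ℕ, ∀ X : ℕ, 1 ≤ X → ∀ S : Finset ℤ, (∀ a ∈ S, (X : ℤ) ≤ a ∧ a ≤ 2 * X ∧ ∃ x y : ℤ,
      |x| ≤ ((X ^ κ : ℕ) : ℤ) ∧ |y| ≤ ((X ^ κ : ℕ) : ℤ) ∧ ev3 a x y F = 0 ∧ ¬ Sol F a x y) →
      (S.card : ℝ) ≤ C * (X : ℝ) ^ (157 / 160 : ℝ) := by
  classical
  obtain ⟨C1, h1⟩ := small_all (by omega) h
  obtain ⟨c, A0, h2⟩ := middle_all κ 41 hn h
  obtain ⟨X0, hX0⟩ : ∃ X0 : ℕ, X0 = A0 + 4 ^ 20 := ⟨_, rfl⟩
  refine ⟨6 * c + 3 * C1 + (X0 + 1), fun X hX S hS => ?_⟩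
  have hX1 : (1 : ℝ) ≤ X := by exact_mod_cast hX
  have hXp : 1 ≤ (X : ℝ) ^ (157 / 160 : ℝ) := Real.one_le_rpow hX1 (by norm_num)
  by_cases hbig : X0 ≤ X
  · obtain ⟨v, U, P, T, hv4, hvX, hvv, h58, hU20, hU41, hCpl, hPv, hwin, hTX, hTv, hxT⟩ :=
      win_par (X := X) (by omega)
    have hU1 : 1 ≤ U := hCpl.1
    obtain ⟨S0, hS0⟩ : ∃ S0, S0 = S.filter (fun a : ℤ => ∃ x y : ℤ, |x| ≤ T ∧ |y| ≤ T ∧
      ev3 a x y F = 0 ∧ ¬ Sol F a x y) := ⟨_, rfl⟩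
    obtain ⟨Sk, hSk⟩ : ∃ Sk : ℕ → Finset ℤ, ∀ k, Sk k = (Icc (0 : ℤ) U).filter
      (fun u : ℤ => ∃ x y : ℤ, (((((X + k * U : ℕ)) ^ 19 : ℕ) : ℤ) ≤ |x| ^ 20 ∨
        ((((X + k * U : ℕ)) ^ 19 : ℕ) : ℤ) ≤ |y| ^ 20) ∧
        |x| ≤ ((((X + k * U : ℕ)) ^ κ : ℕ) : ℤ) ∧ |y| ≤ ((((X + k * U : ℕ)) ^ κ : ℕ) : ℤ) ∧
        ev3 (((X + k * U : ℕ) : ℤ) + u) x y F = 0 ∧ ¬ Sol F (((X + k * U : ℕ) : ℤ) + u) x y) :=
      ⟨_, fun _ => rfl⟩
    have hsub : S ⊆ S0 ∪ (range (X / U + 1)).biUnion (fun k => (Sk k).image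
        (fun u => ((X + k * U : ℕ) : ℤ) + u)) := by
      intro a ha
      obtain ⟨haX, ha2, x, y, hx, hy, hev, hsol⟩ := hS a ha
      obtain ⟨b, rfl⟩ : ∃ b : ℕ, a = (X : ℤ) + b := ⟨(a - X).toNat, by omega⟩
      have hbX : b ≤ X := by omega
      obtain ⟨k, hk⟩ : ∃ k, k = b / U := ⟨_, rfl⟩
      obtain ⟨r, hr⟩ : ∃ r, r = b % U := ⟨_, rfl⟩
      have hrU : r < U := by rw [hr]; exact Nat.mod_lt _ hU1
      have hbkr : b = k * U + r := by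
        rw [hk, hr, mul_comm]
        exact (Nat.div_add_mod b U).symm
      have hkX : k ≤ X / U := by
        rw [hk]
        exact Nat.div_le_div_right hbX
      have hAle : X + k * U ≤ 2 * X := by omega
      have ea : (X : ℤ) + b = ((X + k * U : ℕ) : ℤ) + r := by
        rw [hbkr]
        push_cast
        ring
      rw [mem_union]
      by_cases hmid : ((((X + k * U : ℕ)) ^ 19 : ℕ) : ℤ) ≤ |x| ^ 20 ∨
        ((((X + k * U : ℕ)) ^ 19 : ℕ) : ℤ) ≤ |y| ^ 20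
      · right
        rw [mem_biUnion]
        refine ⟨k, mem_range.2 (by omega), ?_⟩
        rw [mem_image]
        refine ⟨r, ?_, ea.symm⟩
        rw [hSk, mem_filter, mem_Icc]
        have hXA : ((X ^ κ : ℕ) : ℤ) ≤ ((((X + k * U : ℕ)) ^ κ : ℕ) : ℤ) := by
          exact_mod_cast Nat.pow_le_pow_left (by omega : X ≤ X + k * U) κ
        refine ⟨⟨by omega, by omega⟩, x, y, hmid, hx.trans hXA, hy.trans hXA, ?_, ?_⟩
        · rw [← ea]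
          exact hev
        · rw [← ea]
          exact hsol
      · left
        push Not at hmid
        rw [hS0, mem_filter]
        have hA19 : ((((X + k * U : ℕ)) ^ 19 : ℕ) : ℤ) ≤ (((2 * X) ^ 19 : ℕ) : ℤ) := by
          exact_mod_cast Nat.pow_le_pow_left hAle 19
        exact ⟨ha, x, y, hxT x (lt_of_lt_of_le hmid.1 hA19), hxT y (lt_of_lt_of_le hmid.2 hA19),
          hev, hsol⟩
    have e1 : S0.card ≤ C1 * (T + 1) := h1 X T hX hTX S0 fun a ha => by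
      rw [hS0, mem_filter] at ha
      exact ⟨(hS a ha.1).1, ha.2⟩
    have e2 : ((range (X / U + 1)).biUnion (fun k => (Sk k).image
        (fun u => ((X + k * U : ℕ) : ℤ) + u))).card ≤ (X / U + 1) * (c * P) := by
      have := card_biUnion_le_card_mul (range (X / U + 1)) (fun k => (Sk k).image
        (fun u => ((X + k * U : ℕ) : ℤ) + u)) (c * P) fun k hk => ?_
      · rwa [card_range] at this
      · refine card_image_le.trans ?_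
        rw [mem_range] at hk
        have hkU : k * U ≤ X :=
          (Nat.mul_le_mul_right U (by omega : k ≤ X / U)).trans (Nat.div_mul_le_self X U)
        refine h2 (X + k * U) U P (by omega) (by omega) (by omega) hCpl (Sk k) fun u hu => ?_
        rw [hSk, mem_filter, mem_Icc] at hu
        exact ⟨hu.1.1, hu.1.2, hu.2⟩
    have e3 : S.card ≤ C1 * (T + 1) + (X / U + 1) * (c * P) :=
      (card_le_card hsub).trans ((card_union_le _ _).trans (add_le_add e1 e2))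
    have e4 : (S.card : ℝ) ≤ C1 * ((T + 1 : ℕ) : ℝ) + ((X / U + 1 : ℕ) : ℝ) * (c * P) := by
      exact_mod_cast e3
    refine e4.trans ?_
    have hv0 : (0 : ℝ) ≤ v ^ 19 := by positivity
    have f1 : (C1 : ℝ) * ((T + 1 : ℕ) : ℝ) ≤ C1 * (3 * (v ^ 19 * v ^ (5 / 8 : ℝ))) := by
      refine mul_le_mul_of_nonneg_left (hTv.trans ?_) (Nat.cast_nonneg _)
      exact mul_le_mul_of_nonneg_left (le_mul_of_one_le_right hv0 h58) (by norm_num)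
    have f2 : ((X / U + 1 : ℕ) : ℝ) * (c * P) ≤ 3 * v ^ 19 * (c * (2 * v ^ (5 / 8 : ℝ))) :=
      mul_le_mul hwin (mul_le_mul_of_nonneg_left hPv (Nat.cast_nonneg _)) (by positivity)
        (by positivity)
    rw [hvv] at f1
    have f3 : 3 * v ^ 19 * (c * (2 * v ^ (5 / 8 : ℝ))) =
        6 * c * (v ^ 19 * v ^ (5 / 8 : ℝ)) := by ring
    rw [f3, hvv] at f2
    have f4 : (0 : ℝ) ≤ (X0 + 1 : ℝ) * (X : ℝ) ^ (157 / 160 : ℝ) := by positivity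
    refine (add_le_add f1 f2).trans ?_
    have f5 : (((6 * c + 3 * C1 + (X0 + 1) : ℕ)) : ℝ) * (X : ℝ) ^ (157 / 160 : ℝ) =
        C1 * (3 * (X : ℝ) ^ (157 / 160 : ℝ)) + 6 * c * (X : ℝ) ^ (157 / 160 : ℝ) +
        (X0 + 1 : ℝ) * (X : ℝ) ^ (157 / 160 : ℝ) := by
      push_cast
      ring
    rw [f5]
    linarith
  · have h3 : S ⊆ Icc (X : ℤ) (2 * X) := by
      intro a ha
      rw [mem_Icc]
      exact ⟨(hS a ha).1, (hS a ha).2.1⟩
    have h4 : S.card ≤ X0 + 1 := by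
      refine (card_le_card h3).trans ?_
      rw [Int.card_Icc]
      omega
    have h5 : (S.card : ℝ) ≤ (X0 + 1 : ℕ) := by exact_mod_cast h4
    refine h5.trans ?_
    push_cast
    have f1 : (0 : ℝ) ≤ 6 * c + 3 * C1 := by positivity
    have f2 : (0 : ℝ) ≤ (X0 : ℝ) + 1 := by positivity
    nlinarith

end Pool.Agent.H98.TE
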