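import Pool.Agent.H98.TE.NWT

/-! # [H98 TE EXPN] Expansions in the two small variables (real part of Theorem E) -/

namespace Pool.Agent.H98.TE

open Finset

/-- approximation of the root by a polynomial in the parameters -/
theorem approx (P : Polynomial R3) (θ : ℝ)
    (h0 : (P.map (MvPolynomial.eval (0 : Fin 3 → ℝ))).eval θ = 0)
    (h1 : (P.map (MvPolynomial.eval (0 : Fin 3 → ℝ))).derivative.eval θ ≠ 0) (K : ℕ) :
    ∃ (Φ : R3) (C c0 : ℝ), 0 ≤ C ∧ 0 < c0 ∧ c0 ≤ 1 ∧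
      ∀ (ε : Fin 3 → ℝ) (ρ : ℝ), (∀ i, |ε i| ≤ ρ) → ρ ≤ c0 → ∀ Z : ℝ, |Z - θ| ≤ c0 →
        (P.map (MvPolynomial.eval ε)).eval Z = 0 → |Z - MvPolynomial.eval ε Φ| ≤ C * ρ ^ K := by
  obtain ⟨Φ, C1, hC1, hΦ, h2⟩ := newton P θ h0 h1 K
  obtain ⟨c, C2, hc, hC2, h3⟩ := root_near P θ h1 Φ hΦ
  refine ⟨Φ, C2 * C1, min c 1, by positivity, lt_min hc one_pos, min_le_right _ _,
    fun ε ρ hε hρ Z hZ hP => ?_⟩
  have hρ0 : 0 ≤ ρ := (abs_nonneg _).trans (hε 0)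
  have hρ1 : ρ ≤ 1 := hρ.trans (min_le_right _ _)
  have h4 := h3 ε (fun i => (hε i).trans (hρ.trans (min_le_left _ _))) Z
    (hZ.trans (min_le_left _ _)) hP
  have h5 := h2 ε ρ hε hρ1
  refine h4.trans ?_
  rw [mul_assoc]
  refine mul_le_mul_of_nonneg_left (h5.trans ?_) hC2
  exact mul_le_mul_of_nonneg_left (pow_le_pow_of_le_one hρ0 hρ1 (Nat.le_succ K)) hC1

/-- the coefficient of `w^a ξ^b` -/
noncomputable def cpq (p : R3) (α : ℝ) (ab : ℕ × ℕ) : ℝ :=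
  ∑ d ∈ p.support with (d 1, d 2) = ab, p.coeff d * α ^ (d 0)

theorem cpq_le (p : R3) : ∃ C : ℝ, 0 ≤ C ∧ ∀ α : ℝ, |α| ≤ 1 → ∀ ab, |cpq p α ab| ≤ C := by
  refine ⟨∑ d ∈ p.support, |p.coeff d|, sum_nonneg fun _ _ => abs_nonneg _, fun α hα ab => ?_⟩
  unfold cpq
  refine (abs_sum_le_sum_abs _ _).trans ?_
  refine (sum_le_sum fun d _ => ?_ : _ ≤ ∑ d ∈ p.support with (d 1, d 2) = ab, |p.coeff d|).trans
    (sum_le_sum_of_subset_of_nonneg (filter_subset _ _) fun _ _ _ => abs_nonneg _)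
  rw [abs_mul, abs_pow]
  exact mul_le_of_le_one_right (abs_nonneg _) (pow_le_one₀ (abs_nonneg _) hα)

theorem cpq_sum (p : R3) : ∃ B0 : ℕ, ∀ B : ℕ, B0 ≤ B → ∀ α w ξ : ℝ,
    MvPolynomial.eval ![α, w, ξ] p =
      ∑ ab : Fin B × Fin B, cpq p α (ab.1, ab.2) * (w ^ (ab.1 : ℕ) * ξ ^ (ab.2 : ℕ)) := by
  refine ⟨p.support.sup (fun d => d 1 + d 2) + 1, fun B hB α w ξ => ?_⟩
  have hm : ∀ d ∈ p.support, (d 1, d 2) ∈ range B ×ˢ range B := by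
    intro d hd
    have h1 : d 1 + d 2 ≤ p.support.sup (fun d => d 1 + d 2) :=
      Finset.le_sup (f := fun d : Fin 3 →₀ ℕ => d 1 + d 2) hd
    rw [mem_product, mem_range, mem_range]
    constructor <;> simp only <;> omega
  rw [MvPolynomial.eval_eq', ← sum_fiberwise_of_maps_to hm]
  have h2 : ∑ ab : Fin B × Fin B, cpq p α (ab.1, ab.2) * (w ^ (ab.1 : ℕ) * ξ ^ (ab.2 : ℕ)) =
      ∑ ab ∈ range B ×ˢ range B, cpq p α ab * (w ^ ab.1 * ξ ^ ab.2) := by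
    rw [sum_product, Fintype.sum_prod_type,
      ← Fin.sum_univ_eq_sum_range (fun a => ∑ b ∈ range B, cpq p α (a, b) * (w ^ a * ξ ^ b)) B]
    refine sum_congr rfl fun a _ => ?_
    rw [← Fin.sum_univ_eq_sum_range (fun b => cpq p α ((a : ℕ), b) * (w ^ (a : ℕ) * ξ ^ b)) B]
  rw [h2]
  refine sum_congr rfl fun ab _ => ?_
  unfold cpq
  rw [sum_mul]
  refine sum_congr rfl fun d hd => ?_
  rw [mem_filter] at hd
  have h3 := hd.2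
  rw [← h3, Fin.prod_univ_three]
  simp only [Matrix.cons_val_zero, Matrix.cons_val_one, Matrix.cons_val]
  ring

theorem pow_diff {Z Y D B : ℝ} (hB : 1 ≤ B) (hZ : |Z| ≤ B) (hY : |Y| ≤ B) (h : |Z - Y| ≤ D)
    (k : ℕ) : |Z ^ k - Y ^ k| ≤ k * B ^ k * D := by
  have hD : 0 ≤ D := (abs_nonneg _).trans h
  rw [← (Commute.all Z Y).geom_sum₂_mul, abs_mul]
  refine mul_le_mul ?_ h (abs_nonneg _) (by positivity)
  refine (abs_sum_le_sum_abs _ _).trans ?_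
  have h1 : ∀ i ∈ range k, |Z ^ i * Y ^ (k - 1 - i)| ≤ B ^ k := by
    intro i hi
    rw [mem_range] at hi
    rw [abs_mul, abs_pow, abs_pow]
    calc |Z| ^ i * |Y| ^ (k - 1 - i) ≤ B ^ i * B ^ (k - 1 - i) :=
          mul_le_mul (pow_le_pow_left₀ (abs_nonneg _) hZ _) (pow_le_pow_left₀ (abs_nonneg _) hY _)
            (by positivity) (by positivity)
      _ = B ^ (k - 1) := by rw [← pow_add]; congr 1; omega
      _ ≤ B ^ k := pow_le_pow_right₀ hB (by omega)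
  refine (sum_le_sum h1).trans ?_
  rw [sum_const, card_range, nsmul_eq_mul]

/-- the functions `w^e1 ξ^e2 Z^e3` expanded in `w, ξ` -/
theorem expn {P : Polynomial R3} {θ : ℝ} {K : ℕ} {Φ : R3} {C c0 : ℝ} (hC : 0 ≤ C)
    (hc1 : c0 ≤ 1)
    (hap : ∀ (ε : Fin 3 → ℝ) (ρ : ℝ), (∀ i, |ε i| ≤ ρ) → ρ ≤ c0 → ∀ Z : ℝ, |Z - θ| ≤ c0 →
        (P.map (MvPolynomial.eval ε)).eval Z = 0 → |Z - MvPolynomial.eval ε Φ| ≤ C * ρ ^ K)
    {Λ : Type} [Fintype Λ] (e1 e2 e3 : Λ → ℕ) :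
    ∃ (B : ℕ) (C' : ℝ) (cf : ℝ → Λ → Fin B × Fin B → ℝ), 0 ≤ C' ∧
      (∀ α : ℝ, |α| ≤ 1 → ∀ l pq, |cf α l pq| ≤ C') ∧
      ∀ α w ξ Z ρ : ℝ, |α| ≤ ρ → |w| ≤ ρ → |ξ| ≤ ρ → ρ ≤ c0 → |Z - θ| ≤ c0 →
        (P.map (MvPolynomial.eval ![α, w, ξ])).eval Z = 0 → ∀ l,
        |w ^ e1 l * ξ ^ e2 l * Z ^ e3 l -
          ∑ pq : Fin B × Fin B, cf α l pq * (w ^ (pq.1 : ℕ) * ξ ^ (pq.2 : ℕ))| ≤ C' * ρ ^ K := by
  classical
  obtain ⟨Ψ, hΨ⟩ : ∃ Ψ : Λ → R3, ∀ l, Ψ l = MvPolynomial.X 1 ^ e1 l * MvPolynomial.X 2 ^ e2 l *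
      Φ ^ e3 l := ⟨_, fun _ => rfl⟩
  choose B0 hB0 using fun l => cpq_sum (Ψ l)
  choose C0 hC0 hC0' using fun l => cpq_le (Ψ l)
  obtain ⟨CΦ, hCΦ, hΦb⟩ := mp_bd Φ
  obtain ⟨B1, hB1⟩ : ∃ B1 : ℝ, B1 = |θ| + 1 + CΦ := ⟨_, rfl⟩
  have hB1' : 1 ≤ B1 := by
    rw [hB1]
    have := abs_nonneg θ
    linarith
  refine ⟨univ.sup B0, ∑ l, C0 l + ∑ l, (e3 l : ℝ) * B1 ^ e3 l * C,
    fun α l pq => cpq (Ψ l) α (pq.1, pq.2), ?_, ?_, ?_⟩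
  · have h1 : 0 ≤ ∑ l, C0 l := sum_nonneg fun l _ => hC0 l
    have h2 : 0 ≤ ∑ l, (e3 l : ℝ) * B1 ^ e3 l * C := sum_nonneg fun l _ => by positivity
    linarith
  · intro α hα l pq
    have h2 : 0 ≤ ∑ l, (e3 l : ℝ) * B1 ^ e3 l * C := sum_nonneg fun l _ => by positivity
    have h3 : C0 l ≤ ∑ l, C0 l := single_le_sum (fun l _ => hC0 l) (mem_univ l)
    exact (hC0' l α hα _).trans (by linarith)
  · intro α w ξ Z ρ hα hw hξ hρ hZ hP l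
    have hρ0 : 0 ≤ ρ := (abs_nonneg _).trans hα
    have hρ1 : ρ ≤ 1 := hρ.trans hc1
    have hε : ∀ i, |(![α, w, ξ] : Fin 3 → ℝ) i| ≤ ρ := by
      intro i
      fin_cases i
      · simpa using hα
      · simpa using hw
      · simpa using hξ
    have h1 := hap _ ρ hε hρ Z hZ hP
    have h2 := (hΦb _ ρ hε hρ1).1
    rw [← hB0 l _ (Finset.le_sup (mem_univ l)) α w ξ, hΨ]
    have h3 : MvPolynomial.eval ![α, w, ξ] (MvPolynomial.X 1 ^ e1 l * MvPolynomial.X 2 ^ e2 l *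
        Φ ^ e3 l) = w ^ e1 l * ξ ^ e2 l * (MvPolynomial.eval ![α, w, ξ] Φ) ^ e3 l := by
      rw [map_mul, map_mul, map_pow, map_pow, map_pow, MvPolynomial.eval_X, MvPolynomial.eval_X]
      simp
    rw [h3, ← mul_sub, abs_mul]
    have h4 : |w ^ e1 l * ξ ^ e2 l| ≤ 1 := by
      rw [abs_mul, abs_pow, abs_pow]
      exact mul_le_one₀ (pow_le_one₀ (abs_nonneg _) (hw.trans hρ1)) (by positivity)
        (pow_le_one₀ (abs_nonneg _) (hξ.trans hρ1))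
    have h5 : |Z| ≤ B1 := by
      have : |Z| ≤ |Z - θ| + |θ| := by
        have := abs_add_le (Z - θ) θ
        rwa [sub_add_cancel] at this
      rw [hB1]
      linarith
    have h6 : |MvPolynomial.eval ![α, w, ξ] Φ| ≤ B1 := by
      rw [hB1]
      have := abs_nonneg θ
      linarith
    have h7 := pow_diff hB1' h5 h6 h1 (e3 l)
    have h8 : (e3 l : ℝ) * B1 ^ e3 l * C ≤ ∑ l, (e3 l : ℝ) * B1 ^ e3 l * C :=
      single_le_sum (f := fun l => (e3 l : ℝ) * B1 ^ e3 l * C) (fun l _ => by positivity)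
        (mem_univ l)
    have h9 : 0 ≤ ∑ l, C0 l := sum_nonneg fun l _ => hC0 l
    calc |w ^ e1 l * ξ ^ e2 l| * |Z ^ e3 l - (MvPolynomial.eval ![α, w, ξ] Φ) ^ e3 l|
        ≤ 1 * ((e3 l : ℝ) * B1 ^ e3 l * (C * ρ ^ K)) :=
          mul_le_mul h4 h7 (abs_nonneg _) zero_le_one
      _ = ((e3 l : ℝ) * B1 ^ e3 l * C) * ρ ^ K := by ring
      _ ≤ _ := mul_le_mul_of_nonneg_right (by linarith) (pow_nonneg hρ0 _)

end Pool.Agent.H98.TE
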