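import Pool.Agent.H98.TE.CLS
import Pool.Agent.H37.TE.Rel

/-! # [H98 TE REAL] The real part of Theorem E: the points of a class lie on a second surface -/

namespace Pool.Agent.H98.TE

open Finset Polynomial Pool.Agent.H37.TE

/-- the relation as a polynomial -/
noncomputable def relG {I n M : ℕ} (c : Lam I n M → ℤ) : ℤ[X][X][X] :=
  ∑ l, C (C (C (c l) * X ^ (l.1 : ℕ)) * X ^ (l.2.2 : ℕ)) * X ^ (l.2.1 : ℕ)

variable {I n M : ℕ}

theorem relG_coeff (c : Lam I n M → ℤ) (b a j : ℕ) :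
    (((relG c).coeff b).coeff a).coeff j =
      ∑ l : Lam I n M, if b = (l.2.1 : ℕ) ∧ a = (l.2.2 : ℕ) ∧ j = (l.1 : ℕ) then c l else 0 := by
  unfold relG
  rw [finsetSum_coeff, finsetSum_coeff, finsetSum_coeff]
  refine sum_congr rfl fun l _ => ?_
  rw [coeff_C_mul_X_pow]
  by_cases hb : b = (l.2.1 : ℕ)
  · rw [if_pos hb, coeff_C_mul_X_pow]
    by_cases ha : a = (l.2.2 : ℕ)
    · rw [if_pos ha, coeff_C_mul_X_pow]
      by_cases hj : j = (l.1 : ℕ)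
      · rw [if_pos hj, if_pos ⟨hb, ha, hj⟩]
      · rw [if_neg hj, if_neg (fun h => hj h.2.2)]
    · rw [if_neg ha, if_neg (fun h => ha h.2.1), coeff_zero]
  · rw [if_neg hb, if_neg (fun h => hb h.1), coeff_zero, coeff_zero]

theorem relG_eq_zero (c : Lam I n M → ℤ) {b a j : ℕ} (h : n ≤ b ∨ M + 1 ≤ a ∨ I ≤ j) :
    (((relG c).coeff b).coeff a).coeff j = 0 := by
  rw [relG_coeff]
  refine sum_eq_zero fun l _ => if_neg fun h' => ?_
  obtain ⟨h1, h2, h3⟩ := h'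
  have e1 := l.2.1.2
  have e2 := l.2.2.2
  have e3 := l.1.2
  omega

theorem relG_ne (c : Lam I n M → ℤ) (hc : c ≠ 0) : relG c ≠ 0 := by
  intro h
  apply hc
  funext l0
  have h1 := relG_coeff c (l0.2.1 : ℕ) (l0.2.2 : ℕ) (l0.1 : ℕ)
  rw [h, coeff_zero, coeff_zero, coeff_zero, sum_eq_single l0] at h1
  · rw [if_pos ⟨rfl, rfl, rfl⟩] at h1
    rw [Pi.zero_apply]
    exact h1.symm
  · intro l _ hl
    refine if_neg fun h' => hl ?_
    obtain ⟨e1, e2, e3⟩ := h'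
    obtain ⟨i, ⟨k, j⟩⟩ := l
    obtain ⟨i0, ⟨k0, j0⟩⟩ := l0
    simp only at e1 e2 e3
    have e4 : i = i0 := Fin.ext e3.symm
    have e5 : k = k0 := Fin.ext e1.symm
    subst e4 e5
    have e6 : j = j0 := Fin.ext e2.symm
    rw [e6]
  · intro h2
    exact absurd (mem_univ _) h2

theorem relG_TD (c : Lam I n M → ℤ) {D : ℕ} (hD : I + M + n ≤ D) : TD D D D (relG c) := by
  refine ⟨?_, fun k => ⟨?_, fun j => ?_⟩⟩
  · rw [natDegree_le_iff_coeff_eq_zero]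
    intro b hb
    ext a j
    rw [relG_eq_zero c (Or.inl (by omega)), coeff_zero, coeff_zero]
  · rw [natDegree_le_iff_coeff_eq_zero]
    intro a ha
    ext j
    rw [relG_eq_zero c (Or.inr (Or.inl (by omega))), coeff_zero]
  · rw [natDegree_le_iff_coeff_eq_zero]
    intro i hi
    exact relG_eq_zero c (Or.inr (Or.inr (by omega)))

theorem relG_deg (c : Lam I n M → ℤ) (hn : 1 ≤ n) : (relG c).natDegree < n := by
  have h : (relG c).natDegree ≤ n - 1 := by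
    rw [natDegree_le_iff_coeff_eq_zero]
    intro b hb
    ext a j
    rw [relG_eq_zero c (Or.inl (by omega)), coeff_zero, coeff_zero]
  omega

theorem relG_ev (c : Lam I n M → ℤ) (u x y : ℤ) :
    ev3 u x y (relG c) =
      ∑ l, c l * (u ^ (l.1 : ℕ) * x ^ (l.2.2 : ℕ) * y ^ (l.2.1 : ℕ)) := by
  unfold ev3 relG
  rw [eval₂_finsetSum]
  refine sum_congr rfl fun l _ => ?_
  rw [eval₂_mul, eval₂_C, eval₂_pow, eval₂_X, coe_eval₂RingHom, eval₂_mul, eval₂_C, eval₂_pow,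
    eval₂_X, coe_eval₂RingHom, eval₂_mul, eval₂_C, eval₂_pow, eval₂_X]
  simp only [eq_intCast, Int.cast_id]
  ring

/-- THE REAL PART of Theorem E -/
theorem real_part (n m κ : ℕ) (hn : 3 ≤ n) (F : ℤ[X][X][X]) (H : DegF n m F) (θ : ℝ)
    (h0 : (topm n m F).eval θ = 0) (h1 : (topm n m F).derivative.eval θ ≠ 0) :
    ∃ (D A0 : ℕ) (c0 : ℝ), 0 < c0 ∧ ∀ A U : ℕ, A0 ≤ A → U ^ 20 ≤ A → ∀ T1 : ℝ, 0 < T1 →
      (A : ℝ) ^ 19 ≤ T1 ^ 20 → T1 ≤ (A : ℝ) ^ κ →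
      ∀ S : Set (ℤ × ℤ × ℤ), (∀ P ∈ S, Cls F A U T1 θ c0 P) →
      ∃ G : ℤ[X][X][X], G ≠ 0 ∧ TD D D D G ∧ G.natDegree < n ∧
        ∀ P ∈ S, ev3 P.1 P.2.1 P.2.2 G = 0 := by
  classical
  obtain ⟨Φ, C, c0, hC, hc0, hc1, hap⟩ := approx (PF n m F) θ (by rw [PF_zero]; exact h0)
    (by rw [PF_zero]; exact h1) (50 * n * κ)
  choose A0 hA0 using fun I => class_det (κ := κ) hn H hC hc0 hc1 hap I
  refine ⟨(22 * n * κ + 2) + 10 * n + n, (range (22 * n * κ + 3)).sup A0 + 2, c0, hc0,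
    fun A U hA hU T1 hT1 hT2 hT3 S hS => ?_⟩
  have hA1 : (1 : ℝ) < A := by exact_mod_cast (by omega : 1 < A)
  have hLA0 : 0 < Real.log A := Real.log_pos hA1
  have hL2 : Real.log T1 ≤ κ * Real.log A := by
    have h1 := Real.log_le_log hT1 hT3
    rwa [Real.log_pow] at h1
  have hL2' : 0 ≤ Real.log T1 := by
    have h1 := Real.log_le_log (by positivity) hT2
    rw [Real.log_pow, Real.log_pow] at h1
    push_cast at h1
    linarith
  obtain ⟨x, hx⟩ : ∃ x, x = 2 * (10 * n) * Real.log T1 / (19 / 20 * Real.log A) := ⟨_, rfl⟩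
  have hx0 : 0 ≤ x := by rw [hx]; positivity
  have hx1 : x ≤ 22 * n * κ := by
    rw [hx, div_le_iff₀ (by positivity)]
    have h2 : 2 * (10 * (n : ℝ)) * Real.log T1 ≤ 2 * (10 * n) * (κ * Real.log A) :=
      mul_le_mul_of_nonneg_left hL2 (by positivity)
    have h3 : (0 : ℝ) ≤ n * κ * Real.log A := by positivity
    nlinarith
  have hI : ⌈x⌉₊ ≤ 22 * n * κ + 2 := by
    have h2 : ⌈x⌉₊ ≤ 22 * n * κ := by
      rw [Nat.ceil_le]
      push_cast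
      exact hx1
    omega
  have hI1 : x ≤ (⌈x⌉₊ : ℝ) := Nat.le_ceil x
  have hI2 : (⌈x⌉₊ : ℝ) ≤ x + 1 := (Nat.ceil_lt_add_one hx0).le
  have hAI : A0 ⌈x⌉₊ ≤ A := by
    have h2 : A0 ⌈x⌉₊ ≤ (range (22 * n * κ + 3)).sup A0 :=
      Finset.le_sup (mem_range.2 (by omega))
    omega
  have hdet := hA0 ⌈x⌉₊ A U hAI hU T1 hT1 hT2 hT3 (by rw [← hx]; exact hI1)
    (by rw [← hx]; exact hI2)
  obtain ⟨c, hc, hrel⟩ := rel_int (ι := Lam ⌈x⌉₊ n (10 * n))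
    (fun l (s : ℤ × ℤ × ℤ) => s.1 ^ (l.1 : ℕ) * s.2.1 ^ (l.2.2 : ℕ) * s.2.2 ^ (l.2.1 : ℕ)) S
    (fun P hP => hdet P fun i => hS _ (hP i))
  refine ⟨relG c, relG_ne c hc, relG_TD c (by omega), relG_deg c (by omega), fun P hP => ?_⟩
  rw [relG_ev]
  exact hrel P hP

end Pool.Agent.H98.TE
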