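import Pool.Agent.H37.TE.Defs
import Pool.Agent.H98.TE.EXPN

/-! # [H98 TE FAM] The family in the small parameters `1/A, u/A, 1/x` (real part of Theorem E)

`PF n m F`: the polynomial `α^m ξ^n F(A (1 + w), 1/ξ, Z/ξ)` in `α = 1/A, w = u/A, ξ = 1/x` and `Z = y/x`.
At `0` it is `topm n m F`, the top form `f_m(1, Z)` of the leading coefficient in `t`. -/

namespace Pool.Agent.H98.TE

open Finset Polynomial Pool.Agent.H37.TE

/-- the coefficient of `t^j x^a y^b` -/
noncomputable def cf3 (F : ℤ[X][X][X]) (j a b : ℕ) : ℤ := ((F.coeff b).coeff a).coeff j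

/-- the form of degree `n` of the coefficient of `t^m`, at `(1, Z)` -/
noncomputable def topm (n m : ℕ) (F : ℤ[X][X][X]) : ℝ[X] :=
  ∑ b ∈ range (n + 1), C ((cf3 F m (n - b) b : ℤ) : ℝ) * X ^ b

/-- the family in the small parameters -/
noncomputable def PF (n m : ℕ) (F : ℤ[X][X][X]) : Polynomial R3 :=
  ∑ b ∈ range (n + 1), C (∑ a ∈ range (n + 1 - b), ∑ j ∈ range (m + 1),
    MvPolynomial.C ((cf3 F j a b : ℤ) : ℝ) * ((MvPolynomial.X 0) ^ (m - j) *
      (1 + MvPolynomial.X 1) ^ j * (MvPolynomial.X 2) ^ (n - a - b))) * X ^ b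

/-- the hypotheses on the degrees -/
structure DegF (n m : ℕ) (F : ℤ[X][X][X]) : Prop where
  tot : ∀ a b, n < a + b → (F.coeff b).coeff a = 0
  deg : ∀ a b, ((F.coeff b).coeff a).natDegree ≤ m

variable {n m : ℕ} {F : ℤ[X][X][X]}

theorem DegF.nat (H : DegF n m F) : F.natDegree ≤ n := by
  rw [natDegree_le_iff_coeff_eq_zero]
  intro b hb
  ext1 a
  rw [H.tot a b (by omega), coeff_zero]

theorem DegF.natx (H : DegF n m F) {b : ℕ} (hb : b ≤ n) : (F.coeff b).natDegree < n + 1 - b := by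
  rw [Nat.lt_iff_add_one_le, ← Nat.le_sub_iff_add_le (by omega)]
  rw [natDegree_le_iff_coeff_eq_zero]
  intro a ha
  exact H.tot a b (by omega)

theorem ev3_sum (H : DegF n m F) {S : Type*} [CommRing S] (t x y : S) :
    ev3 t x y F = ∑ b ∈ range (n + 1), ∑ a ∈ range (n + 1 - b), ∑ j ∈ range (m + 1),
      (cf3 F j a b : S) * (t ^ j * x ^ a * y ^ b) := by
  unfold ev3
  rw [eval₂_eq_sum_range' _ (lt_of_le_of_lt H.nat (Nat.lt_succ_self n))]
  refine sum_congr rfl fun b hb => ?_
  rw [mem_range, Nat.lt_succ_iff] at hb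
  rw [coe_eval₂RingHom, eval₂_eq_sum_range' _ (H.natx hb), sum_mul]
  refine sum_congr rfl fun a _ => ?_
  rw [coe_eval₂RingHom, eval₂_eq_sum_range' _ (lt_of_le_of_lt (H.deg a b) (Nat.lt_succ_self m)),
    sum_mul, sum_mul]
  refine sum_congr rfl fun j _ => ?_
  rw [eq_intCast, cf3]
  ring

theorem PF_zero (n m : ℕ) (F : ℤ[X][X][X]) :
    (PF n m F).map (MvPolynomial.eval (0 : Fin 3 → ℝ)) = topm n m F := by
  unfold PF topm
  rw [Polynomial.map_sum]
  refine sum_congr rfl fun b hb => ?_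
  rw [mem_range, Nat.lt_succ_iff] at hb
  rw [Polynomial.map_mul, Polynomial.map_pow, Polynomial.map_X, Polynomial.map_C, map_sum]
  congr 2
  rw [sum_eq_single (n - b)]
  · rw [map_sum, sum_eq_single m]
    · have h1 : n - (n - b) - b = 0 := by omega
      rw [h1]
      simp
    · intro j hj hjm
      rw [mem_range] at hj
      have h1 : m - j ≠ 0 := by omega
      simp [h1]
    · intro h
      exact absurd (mem_range.2 (Nat.lt_succ_self m)) h
  · intro a ha hab
    rw [mem_range] at ha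
    have h1 : n - a - b ≠ 0 := by omega
    rw [map_sum]
    refine sum_eq_zero fun j _ => ?_
    simp [h1]
  · intro h
    exact absurd (mem_range.2 (by omega)) h

theorem PF_eval (H : DegF n m F) {A u x y : ℝ} (hA : A ≠ 0) (hx : x ≠ 0) :
    ((PF n m F).map (MvPolynomial.eval ![1 / A, u / A, 1 / x])).eval (y / x) =
      (1 / A) ^ m * (1 / x) ^ n * ev3 (A + u) x y F := by
  unfold PF
  rw [ev3_sum H, Polynomial.map_sum, eval_finsetSum, mul_sum]
  refine sum_congr rfl fun b hb => ?_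
  rw [mem_range, Nat.lt_succ_iff] at hb
  rw [Polynomial.map_mul, Polynomial.map_pow, Polynomial.map_X, Polynomial.map_C, eval_mul, eval_C,
    eval_pow, eval_X, map_sum, mul_sum, sum_mul]
  refine sum_congr rfl fun a ha => ?_
  rw [mem_range] at ha
  rw [map_sum, mul_sum, sum_mul]
  refine sum_congr rfl fun j hj => ?_
  rw [mem_range, Nat.lt_succ_iff] at hj
  simp only [map_mul, map_pow, map_add, map_one, MvPolynomial.eval_C, MvPolynomial.eval_X,
    Matrix.cons_val_zero, Matrix.cons_val_one, Matrix.cons_val]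
  obtain ⟨m', rfl⟩ : ∃ m', m = j + m' := ⟨m - j, by omega⟩
  obtain ⟨n', hn'⟩ : ∃ n', n = a + b + n' := ⟨n - a - b, by omega⟩
  have e1 : j + m' - j = m' := by omega
  have e2 : n - a - b = n' := by omega
  rw [e1, e2, hn']
  have e3 : 1 + u / A = (A + u) / A := by field_simp
  rw [e3, _root_.div_pow, _root_.div_pow, _root_.div_pow, _root_.div_pow, _root_.div_pow,
    _root_.div_pow, pow_add, pow_add, pow_add, one_pow, one_pow, one_pow, one_pow]
  field_simp
  ring

end Pool.Agent.H98.TE
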