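import Pool.Agent.H98.TE.FAM

/-! # [H98 TE TRP] Integer points far out are near the asymptotic directions (Theorem E, trap lemma) -/

namespace Pool.Agent.H98.TE

open Finset Polynomial Pool.Agent.H37.TE

/-- near a simple root -/
theorem near_one (g : ℝ[X]) {θ : ℝ} (h0 : g.eval θ = 0) (h1 : g.derivative.eval θ ≠ 0) :
    ∃ r c : ℝ, 0 < r ∧ 0 < c ∧ ∀ Z : ℝ, |Z - θ| < r → |Z - θ| ≤ c * |g.eval Z| := by
  obtain ⟨q, hq⟩ := dvd_iff_isRoot.2 (show g.IsRoot θ from h0)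
  have h2 : q.eval θ ≠ 0 := by
    intro h
    apply h1
    rw [hq, derivative_mul, eval_add, eval_mul, eval_mul, h]
    simp
  have h3 : 0 < |q.eval θ| := abs_pos.2 h2
  obtain ⟨r, hr, h4⟩ := Metric.continuous_iff.1 q.continuous θ (|q.eval θ| / 2) (by positivity)
  refine ⟨r, 2 / |q.eval θ|, hr, by positivity, fun Z hZ => ?_⟩
  have h5 := h4 Z (by rw [Real.dist_eq]; exact hZ)
  rw [Real.dist_eq] at h5
  have h6 : |q.eval θ| / 2 ≤ |q.eval Z| := by
    have h7 := abs_sub_abs_le_abs_sub (q.eval θ) (q.eval Z)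
    rw [abs_sub_comm] at h7
    linarith
  rw [hq, eval_mul, abs_mul, eval_sub, eval_X, eval_C]
  have h8 : 1 ≤ 2 / |q.eval θ| * |q.eval Z| := by
    rw [div_mul_eq_mul_div, le_div_iff₀ h3]
    linarith
  calc |Z - θ| = 1 * |Z - θ| := (one_mul _).symm
    _ ≤ (2 / |q.eval θ| * |q.eval Z|) * |Z - θ| := mul_le_mul_of_nonneg_right h8 (abs_nonneg _)
    _ = _ := by ring

/-- small values are near roots -/
theorem near_root (g : ℝ[X]) (hg : g ≠ 0) (hs : ∀ θ, g.eval θ = 0 → g.derivative.eval θ ≠ 0) :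
    ∃ C δ0 : ℝ, 0 ≤ C ∧ 0 < δ0 ∧ ∀ Z : ℝ, |Z| ≤ 1 → |g.eval Z| < δ0 →
      ∃ θ ∈ g.roots.toFinset, |Z - θ| ≤ C * |g.eval Z| := by
  classical
  have h1 : ∀ θ : ℝ, ∃ r c : ℝ, 0 < r ∧ 0 < c ∧ (g.eval θ = 0 →
      ∀ Z : ℝ, |Z - θ| < r → |Z - θ| ≤ c * |g.eval Z|) := by
    intro θ
    by_cases h : g.eval θ = 0
    · obtain ⟨r, c, hr, hc, h2⟩ := near_one g h (hs θ h)
      exact ⟨r, c, hr, hc, fun _ => h2⟩
    · exact ⟨1, 1, one_pos, one_pos, fun h' => absurd h' h⟩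
  choose r c hr hc h2 using h1
  obtain ⟨K, hK⟩ : ∃ K : Set ℝ, K = Metric.closedBall (0 : ℝ) 1 \
    ⋃ θ ∈ g.roots.toFinset, Metric.ball θ (r θ) := ⟨_, rfl⟩
  have hKc : IsCompact K := by
    rw [hK]
    refine (isCompact_closedBall (0 : ℝ) 1).diff ?_
    exact isOpen_biUnion fun θ _ => Metric.isOpen_ball
  have hpos : ∀ Z ∈ K, 0 < |g.eval Z| := by
    intro Z hZ
    rw [hK] at hZ
    refine abs_pos.2 fun h => hZ.2 ?_
    refine Set.mem_biUnion (Multiset.mem_toFinset.2 ((mem_roots hg).2 h)) ?_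
    exact Metric.mem_ball_self (hr Z)
  obtain ⟨δ0, hδ0, h3⟩ := hKc.exists_forall_le' (g.continuous.abs.continuousOn) hpos
  refine ⟨∑ θ ∈ g.roots.toFinset, c θ, δ0, sum_nonneg fun θ _ => (hc θ).le, hδ0,
    fun Z hZ hgZ => ?_⟩
  have h4 : Z ∉ K := fun h => absurd (h3 Z h) (not_le.2 hgZ)
  have h5 : Z ∈ ⋃ θ ∈ g.roots.toFinset, Metric.ball θ (r θ) := by
    by_contra h
    apply h4
    rw [hK]
    exact ⟨by rw [Metric.mem_closedBall, dist_zero_right]; exact hZ, h⟩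
  rw [Set.mem_iUnion₂] at h5
  obtain ⟨θ, hθ, h6⟩ := h5
  rw [Metric.mem_ball, Real.dist_eq] at h6
  refine ⟨θ, hθ, (h2 θ ((mem_roots hg).1 (Multiset.mem_toFinset.1 hθ)) Z h6).trans ?_⟩
  exact mul_le_mul_of_nonneg_right (single_le_sum (fun θ _ => (hc θ).le) hθ) (abs_nonneg _)

variable {n m : ℕ} {F : ℤ[X][X][X]}

/-- the top form is small at the points of the surface -/
theorem top_small (H : DegF n m F) : ∃ C : ℝ, 0 ≤ C ∧ ∀ a x y ρ : ℝ, 0 < a → x ≠ 0 → |y| ≤ |x| →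
    ev3 a x y F = 0 → 1 / a ≤ ρ → 1 / |x| ≤ ρ → ρ ≤ 1 →
    |(topm n m F).eval (y / x)| ≤ C * ρ := by
  choose C hC hC' using fun b => mp_bd ((PF n m F).coeff b)
  refine ⟨∑ b ∈ range ((PF n m F).natDegree + 1), C b, sum_nonneg fun b _ => hC b,
    fun a x y ρ ha hx hyx hev h1 h2 h3 => ?_⟩
  have hρ : 0 ≤ ρ := le_trans (by positivity) h1
  have hε : ∀ i, |(![1 / a, 0 / a, 1 / x] : Fin 3 → ℝ) i| ≤ ρ := by
    intro i
    fin_cases i
    · change |1 / a| ≤ ρ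
      rw [abs_of_pos (by positivity)]
      exact h1
    · change |0 / a| ≤ ρ
      rw [zero_div, abs_zero]
      exact hρ
    · change |1 / x| ≤ ρ
      rw [abs_div, abs_one]
      exact h2
  have h4 := PF_eval H (u := 0) (y := y) ha.ne' hx
  rw [add_zero, hev, mul_zero] at h4
  have h5 : |y / x| ≤ 1 := by
    rw [abs_div]
    exact (div_le_one (abs_pos.2 hx)).2 hyx
  have h6 : (topm n m F).eval (y / x) =
      -∑ b ∈ range ((PF n m F).natDegree + 1),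
        (MvPolynomial.eval ![1 / a, 0 / a, 1 / x] ((PF n m F).coeff b) -
          MvPolynomial.eval (0 : Fin 3 → ℝ) ((PF n m F).coeff b)) * (y / x) ^ b := by
    rw [← PF_zero, eval_eq_sum_range' (n := (PF n m F).natDegree + 1)
      (lt_of_le_of_lt natDegree_map_le (Nat.lt_succ_self _))]
    rw [eval_eq_sum_range' (n := (PF n m F).natDegree + 1)
      (lt_of_le_of_lt natDegree_map_le (Nat.lt_succ_self _))] at h4
    simp only [coeff_map] at h4 ⊢
    simp only [sub_mul, sum_sub_distrib]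
    rw [h4]
    ring
  rw [h6, abs_neg]
  refine (abs_sum_le_sum_abs _ _).trans ?_
  rw [sum_mul]
  refine sum_le_sum fun b _ => ?_
  rw [abs_mul, abs_pow]
  have h7 := (hC' b _ ρ hε h3).2
  calc _ ≤ (C b * ρ) * 1 := mul_le_mul h7 (pow_le_one₀ (abs_nonneg _) h5) (by positivity)
        (mul_nonneg (hC b) hρ)
    _ = _ := mul_one _

end Pool.Agent.H98.TE
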