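import Mathlib

/-! # [H98 TE PAR] The index set of the functions and the numerical inequality (real part of Theorem E) -/

namespace Pool.Agent.H98.TE

open Finset

/-- the indices `(i, k, j)`: `i < I`, `k < n`, `j ≤ M - k` -/
abbrev Lam (I n M : ℕ) := Fin I × (Σ k : Fin n, Fin (M + 1 - k))

/-- the number of pairs `(k, j)` -/
def QQ (n M : ℕ) : ℕ := ∑ k : Fin n, (M + 1 - k)

theorem lam_card (I n M : ℕ) : Fintype.card (Lam I n M) = I * QQ n M := by
  unfold QQ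
  rw [Fintype.card_prod, Fintype.card_fin, Fintype.card_sigma]
  simp

theorem lam_sum (I n M : ℕ) : (∑ l : Lam I n M, ((l.1 : ℕ) : ℝ)) =
    (I * QQ n M : ℝ) * ((I - 1) / 2) := by
  rw [Fintype.sum_prod_type]
  have h1 : ∀ i : Fin I, ∑ _y : (Σ k : Fin n, Fin (M + 1 - k)), ((i : ℕ) : ℝ) =
      (QQ n M : ℝ) * ((i : ℕ) : ℝ) := by
    intro i
    rw [sum_const, card_univ, Fintype.card_sigma, nsmul_eq_mul]
    simp [QQ]
  simp only
  rw [sum_congr rfl fun i _ => h1 i, ← mul_sum, Fin.sum_univ_eq_sum_range (fun i => (i : ℝ)) I]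
  have h2 : (∑ i ∈ range I, (i : ℝ)) = I * (I - 1) / 2 := by
    induction I with
    | zero => simp
    | succ I ih =>
      rw [sum_range_succ, ih (fun i => by
        rw [sum_const, card_univ, Fintype.card_sigma, nsmul_eq_mul]
        simp [QQ])]
      push_cast
      ring
  rw [h2]
  ring

theorem QQ_ge (n : ℕ) : (19 / 2 : ℝ) * (n : ℝ) ^ 2 ≤ QQ n (10 * n) := by
  have h : ∀ k : ℕ, k ≤ n → ((∑ i ∈ range k, (10 * n + 1 - i) : ℕ) : ℝ) =
      k * (10 * n + 1) - k * (k - 1) / 2 := by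
    intro k
    induction k with
    | zero => intro _; simp
    | succ k ih =>
      intro hk
      rw [sum_range_succ, Nat.cast_add, ih (by omega), Nat.cast_sub (by omega)]
      push_cast
      ring
  unfold QQ
  rw [Fin.sum_univ_eq_sum_range (fun i => 10 * n + 1 - i) n, h n le_rfl]
  have : (0 : ℝ) ≤ n := Nat.cast_nonneg n
  nlinarith

/-- the numerical inequality -/
theorem par_ineq {n : ℕ} (hn : 3 ≤ n) {LA L1 L2 I N0 M : ℝ} (hM : M = 10 * n) (hLA : 0 < LA)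
    (h1 : L1 = 19 / 20 * LA) (h2 : L1 ≤ L2) (hI : 2 * M * L2 / L1 ≤ I)
    (hI' : I ≤ 2 * M * L2 / L1 + 1) (hN : N0 = I * QQ n (10 * n)) :
    M * N0 * (L2 + LA / 20) + N0 * ((I - 1) / 2) * LA -
      (N0 * (7 / 2 * M * L2) - (7 / 2 * M * L2 + L1 + L2) ^ 3 / (6 * L1 * L2)) ≤
      -(N0 * M * L2 / 16) := by
  have hn' : (3 : ℝ) ≤ n := by exact_mod_cast hn
  have hL1 : 0 < L1 := by rw [h1]; positivity
  have hL2 : 0 < L2 := lt_of_lt_of_le hL1 h2
  have hM0 : 0 < M := by rw [hM]; positivity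
  have hQ := QQ_ge n
  obtain ⟨Q, hQd⟩ : ∃ Q : ℝ, Q = QQ n (10 * n) := ⟨_, rfl⟩
  rw [← hQd] at hQ hN
  have hQ0 : 0 < Q := lt_of_lt_of_le (by positivity) hQ
  have hI0 : 0 < I := lt_of_lt_of_le (by positivity) hI
  have hN0 : 0 < N0 := by rw [hN]; positivity
  obtain ⟨E, hE⟩ : ∃ E, E = N0 * M * L2 := ⟨_, rfl⟩
  have hE0 : 0 < E := by rw [hE]; positivity
  -- the first term
  have a1 : M * N0 * (L2 + LA / 20) ≤ 20 / 19 * E := by
    have : LA / 20 = L1 / 19 := by rw [h1]; ring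
    rw [this, hE]
    have : L2 + L1 / 19 ≤ 20 / 19 * L2 := by linarith
    calc M * N0 * (L2 + L1 / 19) ≤ M * N0 * (20 / 19 * L2) :=
          mul_le_mul_of_nonneg_left this (by positivity)
      _ = _ := by ring
  -- the second term
  have a2 : N0 * ((I - 1) / 2) * LA ≤ 20 / 19 * E := by
    have e1 : LA = 20 / 19 * L1 := by rw [h1]; ring
    have e2 : (I - 1) / 2 ≤ M * L2 / L1 := by
      have : 2 * M * L2 / L1 = 2 * (M * L2 / L1) := by ring
      rw [this] at hI'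
      linarith
    have e3 : (I - 1) / 2 * LA ≤ 20 / 19 * (M * L2) := by
      calc (I - 1) / 2 * LA ≤ M * L2 / L1 * LA := mul_le_mul_of_nonneg_right e2 hLA.le
        _ = 20 / 19 * (M * L2) := by rw [e1]; field_simp
    calc N0 * ((I - 1) / 2) * LA = N0 * ((I - 1) / 2 * LA) := by ring
      _ ≤ N0 * (20 / 19 * (M * L2)) := mul_le_mul_of_nonneg_left e3 hN0.le
      _ = _ := by rw [hE]; ring
  -- the cubic term
  have a3 : (7 / 2 * M * L2 + L1 + L2) ^ 3 / (6 * L1 * L2) ≤ 133 / 100 * E := by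
    have b1 : 7 / 2 * M * L2 + L1 + L2 ≤ (7 / 2 * M + 2) * L2 := by nlinarith
    have b2 : (7 / 2 * M + 2) ≤ 107 / 3 * n := by rw [hM]; linarith
    have b3 : 7 / 2 * M * L2 + L1 + L2 ≤ 107 / 3 * n * L2 :=
      b1.trans (mul_le_mul_of_nonneg_right b2 hL2.le)
    have b4 : (7 / 2 * M * L2 + L1 + L2) ^ 3 ≤ (107 / 3 * n * L2) ^ 3 :=
      pow_le_pow_left₀ (by positivity) b3 3
    rw [div_le_iff₀ (by positivity)]
    refine b4.trans ?_
    have b5 : 2 * M * L2 * Q ≤ N0 * L1 := by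
      rw [hN]
      have := mul_le_mul_of_nonneg_right hI hQ0.le
      rw [div_mul_eq_mul_div, div_le_iff₀ hL1] at this
      exact this
    have b6 : 2 * M * L2 * (19 / 2 * (n : ℝ) ^ 2) ≤ N0 * L1 :=
      (mul_le_mul_of_nonneg_left hQ (by positivity)).trans b5
    rw [hM] at b6
    have b7 : 190 * (n : ℝ) ^ 3 * L2 ≤ N0 * L1 := by
      calc 190 * (n : ℝ) ^ 3 * L2 = 2 * (10 * n) * L2 * (19 / 2 * (n : ℝ) ^ 2) := by ring
        _ ≤ _ := b6
    have b8 : 133 / 100 * E * (6 * L1 * L2) = 399 / 50 * M * L2 ^ 2 * (N0 * L1) := by rw [hE]; ring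
    rw [b8]
    have b9 : 399 / 50 * M * L2 ^ 2 * (190 * (n : ℝ) ^ 3 * L2) ≤
        399 / 50 * M * L2 ^ 2 * (N0 * L1) :=
      mul_le_mul_of_nonneg_left b7 (by positivity)
    refine le_trans ?_ b9
    rw [hM]
    have b10 : (107 / 3 * (n : ℝ) * L2) ^ 3 = (107 / 3) ^ 3 * ((n : ℝ) ^ 3 * L2 ^ 3) := by ring
    have b11 : 399 / 50 * (10 * (n : ℝ)) * L2 ^ 2 * (190 * (n : ℝ) ^ 3 * L2) =
        15162 * n * ((n : ℝ) ^ 3 * L2 ^ 3) := by ring
    rw [b10, b11]
    refine mul_le_mul_of_nonneg_right ?_ (by positivity)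
    nlinarith
  have a4 : N0 * (7 / 2 * M * L2) = 7 / 2 * E := by rw [hE]; ring
  rw [a4, ← hE]
  linarith

end Pool.Agent.H98.TE
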