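import Mathlib

/-! # [H98 TE WTS] Weights of distinct pairs (real part of Theorem E)

`wt_sum`: `∑_(p,q) (R - p L1 - q L2)^+ ≤ (R + L1 + L2)^3 / (6 L1 L2)`.
`wt_inj`: for an injective map into the pairs (and the error terms) the sum of the weights is at least
`N R - ∑_(p,q) (R - p L1 - q L2)^+`. -/

namespace Pool.Agent.H98.TE

open Finset

theorem wt_step2 {y L : ℝ} (hL : 0 ≤ L) :
    max 0 y * L ≤ ((max 0 (y + L)) ^ 2 - (max 0 y) ^ 2) / 2 := by
  rcases le_total 0 y with h | h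
  · rw [max_eq_right h, max_eq_right (by linarith)]
    nlinarith
  · rw [max_eq_left h]
    nlinarith [sq_nonneg (max 0 (y + L))]

theorem wt_step3 {y L : ℝ} (hL : 0 ≤ L) :
    (max 0 y) ^ 2 * L ≤ ((max 0 (y + L)) ^ 3 - (max 0 y) ^ 3) / 3 := by
  rcases le_total 0 y with h | h
  · rw [max_eq_right h, max_eq_right (by linarith)]
    nlinarith [mul_nonneg h (mul_nonneg hL hL), mul_nonneg hL (mul_nonneg hL hL)]
  · rw [max_eq_left h]
    have h1 : (0 : ℝ) ≤ max 0 (y + L) := le_max_left _ _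
    have h2 : (0 : ℝ) ≤ (max 0 (y + L)) ^ 3 := pow_nonneg h1 3
    simp only [ne_eq, OfNat.ofNat_ne_zero, not_false_eq_true, zero_pow, zero_mul, sub_zero]
    positivity

theorem wt_sum2 {L : ℝ} (hL : 0 ≤ L) (r : ℝ) (N : ℕ) :
    ∑ q ∈ range N, max 0 (r - q * L) * L ≤ (max 0 (r + L)) ^ 2 / 2 := by
  have h : ∀ N : ℕ, ∑ q ∈ range N, max 0 (r - q * L) * L ≤
      ((max 0 (r + L)) ^ 2 - (max 0 (r + L - N * L)) ^ 2) / 2 := by
    intro N
    induction N with
    | zero => simp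
    | succ N ih =>
      rw [sum_range_succ]
      have h1 := wt_step2 (y := r - N * L) hL
      have e1 : r - N * L + L = r + L - N * L := by ring
      have e2 : r + L - ((N + 1 : ℕ) : ℝ) * L = r - N * L := by push_cast; ring
      rw [e1] at h1
      rw [e2]
      linarith
  refine (h N).trans ?_
  have := sq_nonneg (max 0 (r + L - N * L))
  linarith

theorem wt_sum3 {L : ℝ} (hL : 0 ≤ L) (r : ℝ) (N : ℕ) :
    ∑ q ∈ range N, (max 0 (r - q * L)) ^ 2 * L ≤ (max 0 (r + L)) ^ 3 / 3 := by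
  have h : ∀ N : ℕ, ∑ q ∈ range N, (max 0 (r - q * L)) ^ 2 * L ≤
      ((max 0 (r + L)) ^ 3 - (max 0 (r + L - N * L)) ^ 3) / 3 := by
    intro N
    induction N with
    | zero => simp
    | succ N ih =>
      rw [sum_range_succ]
      have h1 := wt_step3 (y := r - N * L) hL
      have e1 : r - N * L + L = r + L - N * L := by ring
      have e2 : r + L - ((N + 1 : ℕ) : ℝ) * L = r - N * L := by push_cast; ring
      rw [e1] at h1
      rw [e2]
      linarith
  refine (h N).trans ?_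
  have : (0 : ℝ) ≤ (max 0 (r + L - N * L)) ^ 3 := pow_nonneg (le_max_left _ _) 3
  linarith

theorem wt_sum {L1 L2 R : ℝ} (h1 : 0 < L1) (h2 : 0 < L2) (hR : 0 ≤ R) (N : ℕ) :
    ∑ p ∈ range N, ∑ q ∈ range N, max 0 (R - (p * L1 + q * L2)) ≤
      (R + L1 + L2) ^ 3 / (6 * L1 * L2) := by
  have h3 : ∀ p ∈ range N, ∑ q ∈ range N, max 0 (R - (p * L1 + q * L2)) ≤
      (max 0 ((R + L2) - p * L1)) ^ 2 / (2 * L2) := by
    intro p _
    have h4 := wt_sum2 h2.le (R - p * L1) N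
    rw [← sum_mul] at h4
    have e1 : ∀ q : ℕ, R - (p * L1 + q * L2) = R - p * L1 - q * L2 := fun q => by ring
    simp only [e1]
    rw [le_div_iff₀ (by positivity)]
    have e2 : R - p * L1 + L2 = (R + L2) - p * L1 := by ring
    rw [e2] at h4
    linarith
  refine (sum_le_sum h3).trans ?_
  rw [← sum_div, div_le_div_iff₀ (by positivity) (by positivity)]
  have h5 := wt_sum3 h1.le (R + L2) N
  rw [← sum_mul, max_eq_right (by linarith : (0 : ℝ) ≤ R + L2 + L1)] at h5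
  have h6 : (∑ p ∈ range N, (max 0 (R + L2 - p * L1)) ^ 2) * L1 * (6 * L2) ≤
      (R + L2 + L1) ^ 3 / 3 * (6 * L2) := by
    exact mul_le_mul_of_nonneg_right h5 (by positivity)
  nlinarith [h6]

theorem wt_inj {ι K : Type*} [Fintype ι] [Fintype K] [DecidableEq K] (wt : K → ℝ) (R : ℝ)
    (κ : ι → K) (hκ : Function.Injective κ) :
    Fintype.card ι * R - ∑ k, max 0 (R - wt k) ≤ ∑ l, wt (κ l) := by
  have h1 : ∑ l, (R - wt (κ l)) ≤ ∑ k, max 0 (R - wt k) := by
    refine (sum_le_sum fun l _ => le_max_right 0 (R - wt (κ l))).trans ?_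
    rw [← sum_image (f := fun k => max 0 (R - wt k)) (s := univ) (g := κ)
      (fun a _ b _ hab => hκ hab)]
    exact sum_le_sum_of_subset_of_nonneg (subset_univ _) fun k _ _ => le_max_left _ _
  rw [sum_sub_distrib, sum_const, card_univ, nsmul_eq_mul] at h1
  linarith

/-- the weights of the pairs and of the error terms -/
noncomputable def wtf (L1 L2 R : ℝ) {B : ℕ} {ι : Type*} : (Fin B × Fin B) ⊕ ι → ℝ
  | Sum.inl pq => (pq.1 : ℕ) * L1 + (pq.2 : ℕ) * L2
  | Sum.inr _ => R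

theorem wtf_inj {L1 L2 R : ℝ} (h1 : 0 < L1) (h2 : 0 < L2) (hR : 0 ≤ R) {B : ℕ} {ι : Type*}
    [Fintype ι] [DecidableEq ι] (κ : ι → (Fin B × Fin B) ⊕ ι) (hκ : Function.Injective κ) :
    Fintype.card ι * R - (R + L1 + L2) ^ 3 / (6 * L1 * L2) ≤ ∑ l, wtf L1 L2 R (κ l) := by
  refine le_trans ?_ (wt_inj (wtf L1 L2 R) R κ hκ)
  have h3 : ∑ k : (Fin B × Fin B) ⊕ ι, max 0 (R - wtf L1 L2 R k) ≤
      (R + L1 + L2) ^ 3 / (6 * L1 * L2) := by
    rw [Fintype.sum_sum_type]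
    have h4 : ∑ x : ι, max 0 (R - wtf L1 L2 R (Sum.inr x : (Fin B × Fin B) ⊕ ι)) = 0 := by
      refine sum_eq_zero fun x _ => ?_
      simp [wtf]
    rw [h4, add_zero, Fintype.sum_prod_type]
    have h5 := wt_sum h1 h2 hR B
    rw [← Fin.sum_univ_eq_sum_range
      (fun p => ∑ q ∈ range B, max 0 (R - ((p : ℝ) * L1 + q * L2))) B] at h5
    refine le_trans (le_of_eq ?_) h5
    refine sum_congr rfl fun p _ => ?_
    rw [← Fin.sum_univ_eq_sum_range (fun q => max 0 (R - (((p : ℕ) : ℝ) * L1 + (q : ℝ) * L2))) B]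
    rfl
  linarith

end Pool.Agent.H98.TE
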