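import Pool.Agent.H37.TE.Dex
import Pool.Agent.H98.TE.WTS

/-! # [H98 TE DBD] The determinant bound (real part of Theorem E) -/

namespace Pool.Agent.H98.TE

open Finset Matrix Pool.Agent.H37.TE

theorem det_col_le {ι : Type*} [Fintype ι] [DecidableEq ι] (M : Matrix ι ι ℝ) (b : ι → ℝ)
    (h : ∀ i l, |M i l| ≤ b l) : |M.det| ≤ ((Fintype.card ι).factorial : ℝ) * ∏ l, b l := by
  rw [Matrix.det_apply']
  refine (abs_sum_le_sum_abs _ _).trans ?_
  have h1 : ∀ σ ∈ (univ : Finset (Equiv.Perm ι)),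
      |((Equiv.Perm.sign σ : ℤ) : ℝ) * ∏ i, M (σ i) i| ≤ ∏ l, b l := by
    intro σ _
    rw [abs_mul]
    have h2 : |((Equiv.Perm.sign σ : ℤ) : ℝ)| = 1 := by
      rcases Int.units_eq_one_or (Equiv.Perm.sign σ) with h | h <;> rw [h] <;> simp
    rw [h2, one_mul, abs_prod]
    exact prod_le_prod (fun i _ => abs_nonneg _) fun i _ => h _ _
  refine (sum_le_sum h1).trans ?_
  rw [sum_const, card_univ, Fintype.card_perm, nsmul_eq_mul]

theorem det_bd {ι K : Type*} [Fintype ι] [DecidableEq ι] [Fintype K] [DecidableEq K]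
    (c : ι → K → ℝ) (v : K → ι → ℝ) (wt : K → ℝ) {C W : ℝ} (hC : 0 ≤ C)
    (hc : ∀ l k, |c l k| ≤ C) (hv : ∀ k i, |v k i| ≤ C * Real.exp (-wt k))
    (hW : ∀ κ : ι → K, Function.Injective κ → W ≤ ∑ l, wt (κ l)) :
    |(Matrix.of fun i l => ∑ k, c l k * v k i).det| ≤
      ((Fintype.card K : ℝ) ^ Fintype.card ι * (C ^ Fintype.card ι *
        (((Fintype.card ι).factorial : ℝ) * C ^ Fintype.card ι))) * Real.exp (-W) := by
  rw [det_expand]
  refine (abs_sum_le_sum_abs _ _).trans ?_
  have h1 : ∀ κ ∈ (univ : Finset (ι → K)).filter Function.Injective,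
      |(∏ l, c l (κ l)) * (Matrix.of fun i l => v (κ l) i).det| ≤
      (C ^ Fintype.card ι * (((Fintype.card ι).factorial : ℝ) * C ^ Fintype.card ι)) *
        Real.exp (-W) := by
    intro κ hκ
    rw [mem_filter] at hκ
    rw [abs_mul, abs_prod]
    have h2 : ∏ l, |c l (κ l)| ≤ C ^ Fintype.card ι := by
      refine (prod_le_prod (fun i _ => abs_nonneg _) fun i _ => hc _ _).trans ?_
      rw [prod_const, card_univ]
    have h3 : |(Matrix.of fun i l => v (κ l) i).det| ≤
        ((Fintype.card ι).factorial : ℝ) * (C ^ Fintype.card ι * Real.exp (-W)) := by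
      refine (det_col_le _ (fun l => C * Real.exp (-wt (κ l))) fun i l => hv _ _).trans ?_
      refine mul_le_mul_of_nonneg_left ?_ (Nat.cast_nonneg _)
      rw [prod_mul_distrib, prod_const, card_univ]
      refine mul_le_mul_of_nonneg_left ?_ (pow_nonneg hC _)
      rw [← Real.exp_sum, Real.exp_le_exp, sum_neg_distrib]
      have := hW κ hκ.2
      linarith
    have h4 := mul_le_mul h2 h3 (abs_nonneg _) (pow_nonneg hC _)
    calc _ ≤ _ := h4
      _ = _ := by ring
  refine (sum_le_sum h1).trans ?_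
  rw [sum_const, nsmul_eq_mul]
  have h5 : ((((univ : Finset (ι → K)).filter Function.Injective).card : ℕ) : ℝ) ≤
      (Fintype.card K : ℝ) ^ Fintype.card ι := by
    have h6 : ((univ : Finset (ι → K)).filter Function.Injective).card ≤
        Fintype.card K ^ Fintype.card ι := by
      refine (card_filter_le _ _).trans ?_
      rw [card_univ, Fintype.card_fun]
    exact_mod_cast h6
  calc _ ≤ (Fintype.card K : ℝ) ^ Fintype.card ι *
        ((C ^ Fintype.card ι * (((Fintype.card ι).factorial : ℝ) * C ^ Fintype.card ι)) *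
        Real.exp (-W)) := mul_le_mul_of_nonneg_right h5 (by positivity)
    _ = _ := by ring

/-- the determinant of functions with expansions in `w, ξ` up to a small error -/
theorem det_class {B : ℕ} {ι : Type} [Fintype ι] [DecidableEq ι] {L1 L2 R : ℝ} (h1 : 0 < L1)
    (h2 : 0 < L2) (hR : 0 ≤ R) (cf : ι → Fin B × Fin B → ℝ) {C : ℝ} (hC : 1 ≤ C)
    (hcf : ∀ l pq, |cf l pq| ≤ C) (w ξ : ι → ℝ) (hw : ∀ i, |w i| ≤ Real.exp (-L1))
    (hξ : ∀ i, |ξ i| ≤ Real.exp (-L2)) (g : ι → ι → ℝ)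
    (hg : ∀ i l, |g i l - ∑ pq : Fin B × Fin B, cf l pq * ((w i) ^ (pq.1 : ℕ) *
      (ξ i) ^ (pq.2 : ℕ))| ≤ C * Real.exp (-R)) :
    |(Matrix.of g).det| ≤
      (((B * B + Fintype.card ι : ℕ) : ℝ) ^ Fintype.card ι * (C ^ Fintype.card ι *
        (((Fintype.card ι).factorial : ℝ) * C ^ Fintype.card ι))) *
      Real.exp (-(Fintype.card ι * R - (R + L1 + L2) ^ 3 / (6 * L1 * L2))) := by
  obtain ⟨err, herr⟩ : ∃ err : ι → ι → ℝ, ∀ i l, err i l = g i l - ∑ pq : Fin B × Fin B,
    cf l pq * ((w i) ^ (pq.1 : ℕ) * (ξ i) ^ (pq.2 : ℕ)) := ⟨_, fun _ _ => rfl⟩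
  have h3 := det_bd (ι := ι) (K := (Fin B × Fin B) ⊕ ι)
    (fun l k => match k with
      | Sum.inl pq => cf l pq
      | Sum.inr l' => if l = l' then 1 else 0)
    (fun k i => match k with
      | Sum.inl pq => (w i) ^ (pq.1 : ℕ) * (ξ i) ^ (pq.2 : ℕ)
      | Sum.inr l' => err i l') (wtf L1 L2 R) (C := C) (W := Fintype.card ι * R -
        (R + L1 + L2) ^ 3 / (6 * L1 * L2)) (by linarith) ?_ ?_ (fun κ hκ => wtf_inj h1 h2 hR κ hκ)
  · have h4 : Fintype.card ((Fin B × Fin B) ⊕ ι) = B * B + Fintype.card ι := by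
      rw [Fintype.card_sum, Fintype.card_prod, Fintype.card_fin]
    rw [h4] at h3
    convert h3 using 4
    ext i l
    rw [Fintype.sum_sum_type]
    simp only [ite_mul, one_mul, zero_mul, sum_ite_eq, mem_univ, if_true]
    rw [herr]
    ring
  · intro l k
    rcases k with pq | l'
    · exact hcf l pq
    · simp only
      split_ifs
      · rw [abs_one]
        exact hC
      · rw [abs_zero]
        linarith
  · intro k i
    rcases k with pq | l'
    · simp only [wtf]
      rw [abs_mul, abs_pow, abs_pow, neg_add, Real.exp_add]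
      have e1 : |w i| ^ (pq.1 : ℕ) ≤ Real.exp (-((pq.1 : ℕ) * L1)) := by
        refine (pow_le_pow_left₀ (abs_nonneg _) (hw i) _).trans (le_of_eq ?_)
        rw [← Real.exp_nat_mul]
        congr 1
        ring
      have e2 : |ξ i| ^ (pq.2 : ℕ) ≤ Real.exp (-((pq.2 : ℕ) * L2)) := by
        refine (pow_le_pow_left₀ (abs_nonneg _) (hξ i) _).trans (le_of_eq ?_)
        rw [← Real.exp_nat_mul]
        congr 1
        ring
      have e3 := mul_le_mul e1 e2 (by positivity) (Real.exp_pos _).le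
      refine e3.trans ?_
      exact le_mul_of_one_le_left (by positivity) hC
    · simp only [wtf]
      rw [herr]
      exact hg i l'

end Pool.Agent.H98.TE
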