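import Pool.Agent.H98.TE.FAM
import Pool.Agent.H98.TE.DBD
import Pool.Agent.H98.TE.PAR

/-! # [H98 TE CLS] The determinant of the points of a class vanishes (real part of Theorem E) -/

namespace Pool.Agent.H98.TE

open Finset Polynomial Pool.Agent.H37.TE

/-- the points of a class: `0 ≤ u ≤ U`, `F(A + u, x, y) = 0`, `T1 ≤ |x| ≤ T1 A^(1/20)`, `|y/x - θ| ≤ c0` -/
structure Cls (F : ℤ[X][X][X]) (A U : ℕ) (T1 θ c0 : ℝ) (P : ℤ × ℤ × ℤ) : Prop where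
  u0 : 0 ≤ P.1
  uU : P.1 ≤ U
  ev : ev3 ((A : ℤ) + P.1) P.2.1 P.2.2 F = 0
  xT : T1 ≤ |(P.2.1 : ℝ)|
  xT' : |(P.2.1 : ℝ)| ^ 20 ≤ T1 ^ 20 * A
  near : |(P.2.2 : ℝ) / P.2.1 - θ| ≤ c0

variable {n m κ : ℕ} {F : ℤ[X][X][X]}

theorem ev3_cast (H : DegF n m F) (t x y : ℤ) :
    ev3 (t : ℝ) (x : ℝ) (y : ℝ) F = ((ev3 t x y F : ℤ) : ℝ) := by
  rw [ev3_sum H, ev3_sum H]
  push_cast
  rfl

/-- the estimates at a point of the class -/
theorem cls_pt (H : DegF n m F) {A U : ℕ} {T1 θ c0 : ℝ} {P : ℤ × ℤ × ℤ} (hA : 2 ≤ A)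
    (hU : U ^ 20 ≤ A) (hT : 0 < T1) (h : Cls F A U T1 θ c0 P) :
    |(P.1 : ℝ) / A| ≤ Real.exp (-(19 / 20 * Real.log A)) ∧
    |1 / (P.2.1 : ℝ)| ≤ Real.exp (-Real.log T1) ∧
    |(P.2.1 : ℝ)| ≤ Real.exp (Real.log T1 + Real.log A / 20) ∧
    (P.2.1 : ℝ) ≠ 0 ∧
    ((PF n m F).map (MvPolynomial.eval ![1 / (A : ℝ), (P.1 : ℝ) / A, 1 / (P.2.1 : ℝ)])).eval
      ((P.2.2 : ℝ) / P.2.1) = 0 := by
  have hA0 : (0 : ℝ) < A := by exact_mod_cast (by omega : 0 < A)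
  have hx : 0 < |(P.2.1 : ℝ)| := lt_of_lt_of_le hT h.xT
  have hx0 : (P.2.1 : ℝ) ≠ 0 := abs_pos.1 hx
  refine ⟨?_, ?_, ?_, hx0, ?_⟩
  · rw [← pow_le_pow_iff_left₀ (abs_nonneg _) (Real.exp_pos _).le (by norm_num : (20 : ℕ) ≠ 0),
      ← Real.exp_nat_mul]
    have e1 : ((20 : ℕ) : ℝ) * -(19 / 20 * Real.log A) = -(((19 : ℕ) : ℝ) * Real.log A) := by
      push_cast
      ring
    rw [e1, Real.exp_neg, Real.exp_nat_mul, Real.exp_log hA0, abs_div, _root_.div_pow,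
      abs_of_pos hA0, div_le_iff₀ (by positivity)]
    have e2 : ((A : ℝ) ^ 19)⁻¹ * (A : ℝ) ^ 20 = A := by
      field_simp
    rw [e2]
    have e3 : |(P.1 : ℝ)| ≤ U := by
      rw [abs_of_nonneg (by exact_mod_cast h.u0)]
      exact_mod_cast h.uU
    calc |(P.1 : ℝ)| ^ 20 ≤ (U : ℝ) ^ 20 := pow_le_pow_left₀ (abs_nonneg _) e3 20
      _ ≤ A := by exact_mod_cast hU
  · rw [Real.exp_neg, Real.exp_log hT, abs_div, abs_one, one_div]
    exact inv_anti₀ hT h.xT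
  · rw [← pow_le_pow_iff_left₀ (abs_nonneg _) (Real.exp_pos _).le (by norm_num : (20 : ℕ) ≠ 0),
      ← Real.exp_nat_mul]
    have e1 : ((20 : ℕ) : ℝ) * (Real.log T1 + Real.log A / 20) =
        ((20 : ℕ) : ℝ) * Real.log T1 + Real.log A := by
      push_cast
      ring
    rw [e1, Real.exp_add, Real.exp_nat_mul, Real.exp_log hT, Real.exp_log hA0]
    exact h.xT'
  · rw [PF_eval H hA0.ne' hx0]
    have e1 : (A : ℝ) + (P.1 : ℝ) = (((A : ℤ) + P.1 : ℤ) : ℝ) := by push_cast; rfl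
    rw [e1, ev3_cast H, h.ev]
    simp

/-- the matrix of the functions `u^i x^j y^k` -/
def clsMat {I : ℕ} (P : Lam I n (10 * n) → ℤ × ℤ × ℤ) : Matrix (Lam I n (10 * n))
    (Lam I n (10 * n)) ℤ := Matrix.of fun i l =>
  (P i).1 ^ (l.1 : ℕ) * (P i).2.1 ^ (l.2.2 : ℕ) * (P i).2.2 ^ (l.2.1 : ℕ)

theorem entry_eq {A u x y : ℝ} (hA : A ≠ 0) (hx : x ≠ 0) {i j k M : ℕ} (h : j + k ≤ M) :
    u ^ i * x ^ j * y ^ k =
      x ^ M * (A ^ i * ((u / A) ^ i * (1 / x) ^ (M - j - k) * (y / x) ^ k)) := by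
  obtain ⟨r, rfl⟩ : ∃ r, M = j + k + r := ⟨M - j - k, by omega⟩
  have hr : j + k + r - j - k = r := by omega
  rw [hr, _root_.div_pow, _root_.div_pow, _root_.div_pow, one_pow, pow_add, pow_add]
  field_simp

theorem class_det (hn : 3 ≤ n) (H : DegF n m F) {θ : ℝ} {Φ : R3} {C c0 : ℝ} (hC : 0 ≤ C)
    (hc0 : 0 < c0) (hc1 : c0 ≤ 1)
    (hap : ∀ (ε : Fin 3 → ℝ) (ρ : ℝ), (∀ i, |ε i| ≤ ρ) → ρ ≤ c0 → ∀ Z : ℝ, |Z - θ| ≤ c0 →
        ((PF n m F).map (MvPolynomial.eval ε)).eval Z = 0 →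
        |Z - MvPolynomial.eval ε Φ| ≤ C * ρ ^ (50 * n * κ)) (I : ℕ) :
    ∃ A0 : ℕ, ∀ A U : ℕ, A0 ≤ A → U ^ 20 ≤ A → ∀ T1 : ℝ, 0 < T1 → (A : ℝ) ^ 19 ≤ T1 ^ 20 →
      T1 ≤ (A : ℝ) ^ κ →
      2 * (10 * n) * Real.log T1 / (19 / 20 * Real.log A) ≤ I →
      I ≤ 2 * (10 * n) * Real.log T1 / (19 / 20 * Real.log A) + 1 →
      ∀ P : Lam I n (10 * n) → ℤ × ℤ × ℤ, (∀ i, Cls F A U T1 θ c0 (P i)) →
      (clsMat P).det = 0 := by
  classical
  obtain ⟨B, C', cf, hC', hcf, hex⟩ := expn hC hc1 hap (Λ := Lam I n (10 * n)) (fun l => l.1)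
    (fun l => 10 * n - l.2.2 - l.2.1) (fun l => l.2.1)
  obtain ⟨C1, hC1⟩ : ∃ C1 : ℝ, C1 = max C' 1 := ⟨_, rfl⟩
  have hC1' : C' ≤ C1 := by rw [hC1]; exact le_max_left _ _
  have hC11 : 1 ≤ C1 := by rw [hC1]; exact le_max_right _ _
  obtain ⟨N0, hN0⟩ : ∃ N0 : ℕ, N0 = I * QQ n (10 * n) := ⟨_, rfl⟩
  have hcard : Fintype.card (Lam I n (10 * n)) = N0 := by rw [lam_card, hN0]
  obtain ⟨Cst, hCst⟩ : ∃ Cst : ℝ, Cst = (((B * B + N0 : ℕ) : ℝ) ^ N0 * (C1 ^ N0 *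
    ((N0.factorial : ℝ) * C1 ^ N0))) := ⟨_, rfl⟩
  have hCst0 : 0 ≤ Cst := by rw [hCst]; positivity
  refine ⟨⌈(Cst + 1 / c0 + 2) ^ 2⌉₊ + 2, fun A U hA hU T1 hT1 hT2 hT3 hI hI' P hP => ?_⟩
  have hA2 : 2 ≤ A := by omega
  have hA0 : (0 : ℝ) < A := by exact_mod_cast (by omega : 0 < A)
  have hA1 : (1 : ℝ) < A := by exact_mod_cast (by omega : 1 < A)
  have hAbig : (Cst + 1 / c0 + 2) ^ 2 ≤ A := by
    refine (Nat.le_ceil _).trans ?_
    exact_mod_cast (by omega : ⌈(Cst + 1 / c0 + 2) ^ 2⌉₊ ≤ A)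
  obtain ⟨LA, hLA⟩ : ∃ LA, LA = Real.log A := ⟨_, rfl⟩
  obtain ⟨L1, hL1⟩ : ∃ L1, L1 = 19 / 20 * LA := ⟨_, rfl⟩
  obtain ⟨L2, hL2⟩ : ∃ L2, L2 = Real.log T1 := ⟨_, rfl⟩
  have hLA0 : 0 < LA := by rw [hLA]; exact Real.log_pos hA1
  have hL10 : 0 < L1 := by rw [hL1]; positivity
  have hL12 : L1 ≤ L2 := by
    have h1 := Real.log_le_log (by positivity) hT2
    rw [Real.log_pow, Real.log_pow, ← hLA, ← hL2] at h1
    push_cast at h1
    rw [hL1]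
    linarith
  have hL20 : 0 < L2 := lt_of_lt_of_le hL10 hL12
  have hL2κ : L2 ≤ κ * LA := by
    have h1 := Real.log_le_log hT1 hT3
    rwa [Real.log_pow, ← hLA, ← hL2] at h1
  have hexpL1 : Cst + 1 / c0 + 2 ≤ Real.exp L1 := by
    have h1 : Real.exp (LA / 2) ≤ Real.exp L1 := by
      rw [Real.exp_le_exp, hL1]
      linarith
    refine le_trans ?_ h1
    rw [← pow_le_pow_iff_left₀ (by positivity) (Real.exp_pos _).le (by norm_num : (2 : ℕ) ≠ 0),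
      ← Real.exp_nat_mul]
    have e1 : ((2 : ℕ) : ℝ) * (LA / 2) = LA := by push_cast; ring
    rw [e1, hLA, Real.exp_log hA0]
    exact hAbig
  have hρc : Real.exp (-L1) ≤ c0 := by
    rw [Real.exp_neg]
    refine inv_le_of_inv_le₀ hc0 ?_
    rw [← one_div]
    linarith
  rw [← hLA, ← hL1, ← hL2] at hI hI'
  -- the points
  have hpt := fun i => cls_pt H hA2 hU hT1 (hP i)
  rw [← hLA, ← hL1, ← hL2] at hpt
  obtain ⟨g, hg⟩ : ∃ g : Lam I n (10 * n) → Lam I n (10 * n) → ℝ, ∀ i l, g i l =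
      ((P i).1 / (A : ℝ)) ^ (l.1 : ℕ) * (1 / ((P i).2.1 : ℝ)) ^ (10 * n - l.2.2 - l.2.1) *
      (((P i).2.2 : ℝ) / (P i).2.1) ^ (l.2.1 : ℕ) := ⟨_, fun _ _ => rfl⟩
  have hα : |1 / (A : ℝ)| ≤ Real.exp (-L1) := by
    rw [abs_of_pos (by positivity), one_div, ← Real.exp_log hA0, ← Real.exp_neg, Real.exp_le_exp,
      ← hLA, hL1]
    linarith
  have hρ1 : Real.exp (-L1) ≤ 1 := hρc.trans hc1
  have hRK : Real.exp (-L1) ^ (50 * n * κ) ≤ Real.exp (-(7 / 2 * (10 * n) * L2)) := by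
    rw [← Real.exp_nat_mul, Real.exp_le_exp, hL1]
    push_cast
    have h1 : (7 / 2 * (10 * (n : ℝ)) * L2) ≤ 7 / 2 * (10 * n) * (κ * LA) :=
      mul_le_mul_of_nonneg_left hL2κ (by positivity)
    have h2 : (0 : ℝ) ≤ n * κ * LA := by positivity
    nlinarith
  have herr : ∀ i l, |g i l - ∑ pq : Fin B × Fin B, cf (1 / A) l pq *
      (((P i).1 / (A : ℝ)) ^ (pq.1 : ℕ) * (1 / ((P i).2.1 : ℝ)) ^ (pq.2 : ℕ))| ≤
      C1 * Real.exp (-(7 / 2 * (10 * n) * L2)) := by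
    intro i l
    obtain ⟨p1, p2, p3, p4, p5⟩ := hpt i
    have h1 := hex (1 / A) ((P i).1 / A) (1 / ((P i).2.1 : ℝ)) (((P i).2.2 : ℝ) / (P i).2.1)
      (Real.exp (-L1)) hα p1 (p2.trans (by rw [Real.exp_le_exp]; linarith)) hρc (hP i).near p5 l
    rw [hg]
    refine h1.trans ?_
    exact mul_le_mul hC1' hRK (by positivity) (by linarith)
  have hdet := det_class hL10 hL20 (by positivity : 0 ≤ 7 / 2 * (10 * (n : ℝ)) * L2) (cf (1 / A)) hC11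
    (fun l pq => (hcf (1 / A) (hα.trans hρ1) l pq).trans hC1')
    (fun i => (P i).1 / (A : ℝ)) (fun i => 1 / ((P i).2.1 : ℝ)) (fun i => (hpt i).1)
    (fun i => (hpt i).2.1) g herr
  rw [hcard, ← hCst] at hdet
  -- the factorisation
  have hfac : ((clsMat P).det : ℝ) = (∏ i, ((P i).2.1 : ℝ) ^ (10 * n)) *
      ((∏ l : Lam I n (10 * n), (A : ℝ) ^ (l.1 : ℕ)) * (Matrix.of g).det) := by
    rw [← Matrix.det_mul_row, ← Matrix.det_mul_column]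
    have h1 : (((clsMat P).det : ℤ) : ℝ) = ((clsMat P).map (Int.castRingHom ℝ)).det := by
      rw [← RingHom.mapMatrix_apply, ← RingHom.map_det]
      rfl
    rw [h1]
    congr 1
    ext i l
    have hx0 := (hpt i).2.2.2.1
    rw [Matrix.map_apply, Matrix.of_apply, Matrix.of_apply, Matrix.of_apply, hg, clsMat,
      Matrix.of_apply]
    have hj : ((l.2.2 : ℕ)) + (l.2.1 : ℕ) ≤ 10 * n := by
      have := l.2.2.2
      have := l.2.1.2
      omega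
    rw [← entry_eq hA0.ne' hx0 hj]
    simp only [map_mul, map_pow, eq_intCast]
  -- the bound
  have hb1 : |∏ i : Lam I n (10 * n), ((P i).2.1 : ℝ) ^ (10 * n)| ≤
      Real.exp (10 * n * N0 * (L2 + LA / 20)) := by
    rw [abs_prod]
    have h1 : ∀ i ∈ (univ : Finset (Lam I n (10 * n))), |((P i).2.1 : ℝ) ^ (10 * n)| ≤
        Real.exp (10 * n * (L2 + LA / 20)) := by
      intro i _
      rw [abs_pow]
      refine (pow_le_pow_left₀ (abs_nonneg _) (hpt i).2.2.1 _).trans (le_of_eq ?_)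
      rw [← Real.exp_nat_mul]
      push_cast
      rfl
    refine (prod_le_prod (fun i _ => abs_nonneg _) h1).trans (le_of_eq ?_)
    rw [prod_const, card_univ, hcard, ← Real.exp_nat_mul]
    congr 1
    ring
  have hb2 : (∏ l : Lam I n (10 * n), (A : ℝ) ^ (l.1 : ℕ)) =
      Real.exp (N0 * (((I : ℝ) - 1) / 2) * LA) := by
    rw [prod_pow_eq_pow_sum, ← Real.exp_log hA0, ← Real.exp_nat_mul, ← hLA]
    congr 1
    have h1 := lam_sum I n (10 * n)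
    push_cast
    rw [h1, hN0]
    push_cast
    ring
  have hpar := par_ineq hn (M := 10 * n) (I := I) (N0 := N0) rfl hLA0 hL1 hL12 hI hI'
    (by rw [hN0]; push_cast; ring)
  have hI1 : (1 : ℝ) ≤ I := by
    refine le_trans ?_ hI
    rw [le_div_iff₀ hL10]
    have hn' : (3 : ℝ) ≤ n := by exact_mod_cast hn
    nlinarith
  have hN1 : (1 : ℝ) ≤ N0 := by
    rw [hN0]
    push_cast
    have h1 := QQ_ge n
    have hn' : (3 : ℝ) ≤ n := by exact_mod_cast hn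
    have h2 : (1 : ℝ) ≤ QQ n (10 * n) := by nlinarith
    nlinarith
  have habs : |((clsMat P).det : ℝ)| < 1 := by
    rw [hfac, abs_mul, abs_mul, hb2, abs_of_pos (Real.exp_pos _)]
    calc |∏ i : Lam I n (10 * n), ((P i).2.1 : ℝ) ^ (10 * n)| *
          (Real.exp (N0 * (((I : ℝ) - 1) / 2) * LA) * |(Matrix.of g).det|)
        ≤ Real.exp (10 * n * N0 * (L2 + LA / 20)) * (Real.exp (N0 * (((I : ℝ) - 1) / 2) * LA) *
          (Cst * Real.exp (-(N0 * (7 / 2 * (10 * n) * L2) -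
            (7 / 2 * (10 * n) * L2 + L1 + L2) ^ 3 / (6 * L1 * L2))))) := by
          refine mul_le_mul hb1 ?_ (by positivity) (Real.exp_pos _).le
          exact mul_le_mul_of_nonneg_left hdet (Real.exp_pos _).le
      _ = Cst * Real.exp (10 * n * N0 * (L2 + LA / 20) + N0 * (((I : ℝ) - 1) / 2) * LA -
            (N0 * (7 / 2 * (10 * n) * L2) - (7 / 2 * (10 * n) * L2 + L1 + L2) ^ 3 / (6 * L1 * L2))) := by
          rw [sub_eq_add_neg (10 * (n : ℝ) * N0 * (L2 + LA / 20) + N0 * (((I : ℝ) - 1) / 2) * LA),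
            Real.exp_add, Real.exp_add]
          ring
      _ ≤ Cst * Real.exp (-L1) := by
          refine mul_le_mul_of_nonneg_left ?_ hCst0
          rw [Real.exp_le_exp]
          refine hpar.trans ?_
          have hn' : (3 : ℝ) ≤ n := by exact_mod_cast hn
          have h1 : (16 : ℝ) ≤ N0 * (10 * n) := by nlinarith
          have h2 : 16 * L2 ≤ N0 * (10 * n) * L2 := mul_le_mul_of_nonneg_right h1 hL20.le
          linarith
      _ < 1 := by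
          rw [Real.exp_neg, mul_inv_lt_iff₀ (Real.exp_pos _), one_mul]
          have : 0 < 1 / c0 := by positivity
          linarith
  have h3 : |(clsMat P).det| < 1 := by exact_mod_cast habs
  exact Int.abs_lt_one_iff.1 h3

end Pool.Agent.H98.TE
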