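import Pool.Agent.H98.TE.REAL
import Pool.Agent.H98.TE.TRP
import Pool.Agent.H37.TE.Win

/-! # [H98 TE MID] Points of middle size (Theorem E, section 3) -/

namespace Pool.Agent.H98.TE

open Finset Polynomial Pool.Agent.H37.TE

/-- the point `(x, y)` of the member `a` is the value of a polynomial solution -/
def Sol (F : ℤ[X][X][X]) (a x y : ℤ) : Prop := ∃ r1 r2 : ℚ[X], ev3 X r1 r2 F = 0 ∧
  r1.eval (a : ℚ) = x ∧ r2.eval (a : ℚ) = y

theorem exists_class {A κ N : ℕ} (hA : 2 ≤ A) (h1 : A ^ 19 ≤ N) (h2 : N ≤ A ^ (20 * κ)) :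
    ∃ l ∈ range (20 * κ + 1), 19 + l ≤ 20 * κ ∧ A ^ (19 + l) ≤ N ∧ N ≤ A ^ (20 + l) := by
  have hN : N ≠ 0 := by
    have : 0 < A ^ 19 := by positivity
    omega
  have h3 : 19 ≤ Nat.log A N := Nat.le_log_of_pow_le (by omega) h1
  have h4 : Nat.log A N ≤ 20 * κ := by
    have := Nat.log_mono_right (b := A) h2
    rwa [Nat.log_pow (by omega)] at this
  refine ⟨Nat.log A N - 19, mem_range.2 (by omega), by omega, ?_, ?_⟩
  · rw [show 19 + (Nat.log A N - 19) = Nat.log A N by omega]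
    exact Nat.pow_log_le_self A hN
  · rw [show 20 + (Nat.log A N - 19) = Nat.log A N + 1 by omega]
    exact (Nat.lt_pow_succ_log_self (by omega) N).le

theorem middle_half (n m κ k1 : ℕ) (hn : 3 ≤ n) (F : ℤ[X][X][X]) (H : DegF n m F)
    (hg : topm n m F ≠ 0)
    (hs : ∀ θ, (topm n m F).eval θ = 0 → (topm n m F).derivative.eval θ ≠ 0)
    (hlead : (F.coeff n).coeff 0 ≠ 0)
    (hirr : Irreducible ((topf n F).map (mapRingHom (Int.castRingHom ℂ)))) :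
    ∃ c A0 : ℕ, ∀ A U P : ℕ, A0 ≤ A → U ^ 20 ≤ A → A ≤ U ^ k1 → Cpl U P → ∀ S : Finset ℤ,
      (∀ u ∈ S, 0 ≤ u ∧ u ≤ U ∧ ∃ x y : ℤ, |y| ≤ |x| ∧ ((A ^ 19 : ℕ) : ℤ) ≤ |x| ^ 20 ∧
        |x| ≤ ((A ^ κ : ℕ) : ℤ) ∧ ev3 (A + u) x y F = 0 ∧ ¬ Sol F (A + u) x y) →
      S.card ≤ c * P := by
  classical
  obtain ⟨C1, δ0, hC1, hδ0, h1⟩ := near_root _ hg hs
  obtain ⟨C2, hC2, h2⟩ := top_small H
  -- the constants of the classes
  have h3 : ∀ θ : ℝ, ∃ (c A0 : ℕ) (c0 : ℝ), 0 < c0 ∧ ((topm n m F).eval θ = 0 →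
      ∀ A U P : ℕ, A0 ≤ A → U ^ 20 ≤ A → A ≤ U ^ k1 → Cpl U P → ∀ T1 : ℝ, 0 < T1 →
      (A : ℝ) ^ 19 ≤ T1 ^ 20 → T1 ≤ (A : ℝ) ^ κ → ∀ S : Finset ℤ,
      (∀ u ∈ S, ∃ x y : ℤ, |y| ≤ |x| ∧ |x| ≤ ((A ^ κ : ℕ) : ℤ) ∧ ¬ Sol F (A + u) x y ∧
        Cls F A U T1 θ c0 (u, x, y)) → S.card ≤ c * P) := by
    intro θ
    by_cases hθ : (topm n m F).eval θ = 0
    · obtain ⟨D, A0, c0, hc0, h4⟩ := real_part n m κ hn F H θ hθ (hs θ hθ)
      obtain ⟨c, h5⟩ := window_points n D (k1 * κ) (by omega) F H.tot hlead hirr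
      refine ⟨c, A0, c0, hc0, fun _ A U P hA hU hAU hCpl T1 hT hT1 hT2 S hS => ?_⟩
      obtain ⟨G, hG0, hGT, hGn, hG⟩ := h4 A U hA hU T1 hT hT1 hT2
        {P | Cls F A U T1 θ c0 P} (fun P hP => hP)
      refine h5 A U P hCpl G hGT hG0 hGn S fun u hu => ?_
      obtain ⟨x, y, hyx, hxA, hsol, hcls⟩ := hS u hu
      have hb : ((A ^ κ : ℕ) : ℤ) ≤ ((U ^ (k1 * κ) : ℕ) : ℤ) := by
        rw [pow_mul]
        exact_mod_cast Nat.pow_le_pow_left hAU κ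
      exact ⟨hcls.u0, hcls.uU, x, y, hxA.trans hb, (hyx.trans hxA).trans hb, hcls.ev,
        hG _ hcls, hsol⟩
    · exact ⟨0, 0, 1, one_pos, fun h => absurd h hθ⟩
  choose cc AA c0 hc0 h4 using h3
  obtain ⟨R, hR⟩ : ∃ R, R = (topm n m F).roots.toFinset := ⟨_, rfl⟩
  rw [← hR] at h1
  obtain ⟨K, hK⟩ : ∃ K : ℝ, K = C2 / δ0 + ∑ θ ∈ R, C1 * C2 / c0 θ + 1 := ⟨_, rfl⟩
  have hsum : 0 ≤ ∑ θ ∈ R, C1 * C2 / c0 θ := sum_nonneg fun θ _ => by
    have := hc0 θ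
    positivity
  have hK1 : 1 ≤ K := by
    rw [hK]
    have : 0 ≤ C2 / δ0 := by positivity
    linarith
  refine ⟨∑ θ ∈ R, (20 * κ + 1) * cc θ, R.sup AA + ⌈K ^ 2⌉₊ + 2,
    fun A U P hA hU hAU hCpl S hS => ?_⟩
  have hA2 : 2 ≤ A := by omega
  have hAr : (0 : ℝ) < A := by exact_mod_cast (by omega : 0 < A)
  have hKA : K ^ 2 ≤ A := by
    refine (Nat.le_ceil _).trans ?_
    exact_mod_cast (by omega : ⌈K ^ 2⌉₊ ≤ A)
  obtain ⟨sA, hsA⟩ : ∃ sA, sA = Real.sqrt A := ⟨_, rfl⟩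
  have hKs : K ≤ sA := by
    rw [hsA]
    exact Real.le_sqrt_of_sq_le hKA
  have hs1 : 1 ≤ sA := hK1.trans hKs
  have hs2 : sA ^ 2 = A := by rw [hsA]; exact Real.sq_sqrt hAr.le
  -- the numbers `T1`
  have hT : ∀ l : ℕ, ∃ T1 : ℝ, 0 < T1 ∧ T1 ^ 20 = (A : ℝ) ^ (19 + l) := by
    intro l
    refine ⟨((A : ℝ) ^ (19 + l)) ^ (((20 : ℕ) : ℝ)⁻¹), by positivity, ?_⟩
    exact Real.rpow_inv_natCast_pow (by positivity) (by norm_num)
  choose T1 hT0 hT20 using hT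
  obtain ⟨Sf, hSf⟩ : ∃ Sf : ℝ → ℕ → Finset ℤ, ∀ θ l, Sf θ l = S.filter (fun u => ∃ x y : ℤ,
      |y| ≤ |x| ∧ |x| ≤ ((A ^ κ : ℕ) : ℤ) ∧ ¬ Sol F (A + u) x y ∧
        Cls F A U (T1 l) θ (c0 θ) (u, x, y)) := ⟨_, fun _ _ => rfl⟩
  have hsub : S ⊆ R.biUnion (fun θ => ((range (20 * κ + 1)).filter
      (fun l => 19 + l ≤ 20 * κ)).biUnion (fun l => Sf θ l)) := by
    intro u hu
    obtain ⟨hu0, huU, x, y, hyx, hx19, hxκ, hev, hsol⟩ := hS u hu
    obtain ⟨l, hl, hl2, hl3, hl4⟩ := exists_class (κ := κ) (N := x.natAbs ^ 20) hA2 (by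
      have : ((A ^ 19 : ℕ) : ℤ) ≤ ((x.natAbs ^ 20 : ℕ) : ℤ) := by
        push_cast
        push_cast at hx19
        exact hx19
      exact_mod_cast this) (by
      have h5 : x.natAbs ≤ A ^ κ := by
        have : ((x.natAbs : ℕ) : ℤ) ≤ ((A ^ κ : ℕ) : ℤ) := by
          rw [Int.natCast_natAbs]
          exact hxκ
        exact_mod_cast this
      calc x.natAbs ^ 20 ≤ (A ^ κ) ^ 20 := Nat.pow_le_pow_left h5 20
        _ = A ^ (20 * κ) := by rw [← pow_mul, mul_comm])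
    have hxr : |(x : ℝ)| = ((x.natAbs : ℕ) : ℝ) := by
      rw [Nat.cast_natAbs]
      push_cast
      rfl
    have hx3 : (A : ℝ) ^ (19 + l) ≤ |(x : ℝ)| ^ 20 := by
      rw [hxr]
      exact_mod_cast hl3
    have hx4 : |(x : ℝ)| ^ 20 ≤ (A : ℝ) ^ (20 + l) := by
      rw [hxr]
      exact_mod_cast hl4
    -- the size of `x`
    have hxs : sA ≤ |(x : ℝ)| := by
      rw [← pow_le_pow_iff_left₀ (by linarith) (abs_nonneg _) (by norm_num : (20 : ℕ) ≠ 0)]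
      refine le_trans ?_ hx3
      rw [← hs2, ← pow_mul]
      exact pow_le_pow_right₀ hs1 (by omega)
    have hx0 : (x : ℝ) ≠ 0 := abs_pos.1 (by linarith)
    have hau : (0 : ℝ) < (((A : ℤ) + u : ℤ) : ℝ) := by
      have : (0 : ℤ) < (A : ℤ) + u := by omega
      exact_mod_cast this
    have hyr : |(y : ℝ)| ≤ |(x : ℝ)| := by exact_mod_cast hyx
    have hevr : ev3 (((A : ℤ) + u : ℤ) : ℝ) (x : ℝ) (y : ℝ) F = 0 := by
      rw [ev3_cast H, hev, Int.cast_zero]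
    have h5 := h2 _ x y (1 / sA) hau hx0 hyr hevr
      (one_div_le_one_div_of_le (by linarith) (by
        have : (A : ℝ) ≤ (((A : ℤ) + u : ℤ) : ℝ) := by
          have : (A : ℤ) ≤ (A : ℤ) + u := by omega
          exact_mod_cast this
        nlinarith))
      (one_div_le_one_div_of_le (by linarith) hxs)
      (by rw [div_le_one (by linarith)]; exact hs1)
    have h6 : |(y : ℝ) / x| ≤ 1 := by
      rw [abs_div]
      exact (div_le_one (abs_pos.2 hx0)).2 hyr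
    have h7 : |(topm n m F).eval ((y : ℝ) / x)| < δ0 := by
      refine lt_of_le_of_lt h5 ?_
      rw [mul_one_div, div_lt_iff₀ (by linarith)]
      have : C2 / δ0 < sA := by
        rw [hK] at hKs
        linarith
      rw [div_lt_iff₀ hδ0] at this
      linarith
    obtain ⟨θ, hθ, h8⟩ := h1 _ h6 h7
    rw [mem_biUnion]
    refine ⟨θ, hθ, ?_⟩
    rw [mem_biUnion]
    refine ⟨l, mem_filter.2 ⟨hl, hl2⟩, ?_⟩
    rw [hSf, mem_filter]
    refine ⟨hu, x, y, hyx, hxκ, hsol, ?_⟩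
    refine ⟨hu0, huU, hev, ?_, ?_, ?_⟩
    · rw [← pow_le_pow_iff_left₀ (hT0 l).le (abs_nonneg _) (by norm_num : (20 : ℕ) ≠ 0), hT20]
      exact hx3
    · rw [hT20, ← pow_succ]
      rw [show 19 + l + 1 = 20 + l by omega]
      exact hx4
    · refine (h8.trans (mul_le_mul_of_nonneg_left h5 hC1)).trans ?_
      have h9 : C1 * C2 / c0 θ ≤ ∑ θ ∈ R, C1 * C2 / c0 θ :=
        single_le_sum (f := fun θ => C1 * C2 / c0 θ) (fun θ _ => by
          have := hc0 θ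
          positivity) hθ
      have h10 : C1 * C2 / c0 θ ≤ sA := by
        rw [hK] at hKs
        have : 0 ≤ C2 / δ0 := by positivity
        linarith
      rw [div_le_iff₀ (hc0 θ)] at h10
      rw [mul_one_div, ← mul_div_assoc, div_le_iff₀ (by linarith)]
      linarith
  refine (card_le_card hsub).trans ?_
  refine card_biUnion_le.trans ?_
  rw [sum_mul]
  refine sum_le_sum fun θ hθ => ?_
  rw [hR, Multiset.mem_toFinset] at hθ
  have hroot : (topm n m F).eval θ = 0 := (mem_roots hg).1 hθ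
  have h5 : (((range (20 * κ + 1)).filter (fun l => 19 + l ≤ 20 * κ)).biUnion
      (fun l => Sf θ l)).card ≤
      ((range (20 * κ + 1)).filter (fun l => 19 + l ≤ 20 * κ)).card * (cc θ * P) := by
    refine card_biUnion_le_card_mul _ _ _ fun l hl => ?_
    rw [mem_filter] at hl
    refine h4 θ hroot A U P ?_ hU hAU hCpl (T1 l) (hT0 l) ?_ ?_ (Sf θ l) fun u hu => ?_
    · have : AA θ ≤ R.sup AA := Finset.le_sup (by rw [hR]; exact Multiset.mem_toFinset.2 hθ)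
      omega
    · rw [hT20]
      exact pow_le_pow_right₀ (by exact_mod_cast (by omega : 1 ≤ A)) (by omega)
    · rw [← pow_le_pow_iff_left₀ (hT0 l).le (by positivity) (by norm_num : (20 : ℕ) ≠ 0), hT20,
        ← pow_mul]
      exact pow_le_pow_right₀ (by exact_mod_cast (by omega : 1 ≤ A)) (by omega)
    · rw [hSf, mem_filter] at hu
      exact hu.2
  refine h5.trans ?_
  rw [mul_assoc]
  refine Nat.mul_le_mul_right _ ?_
  refine (card_filter_le _ _).trans ?_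
  rw [card_range]

end Pool.Agent.H98.TE
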