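import Mathlib

/-! # [H98 TE NWT] Newton iteration with parameters (real part of Theorem E)

`P` is a polynomial over `ℝ[α, w, ξ]`, `P(0, θ) = 0`, `P_Z(0, θ) ≠ 0`. `newton`: polynomials `Φ` in `α, w, ξ` with
`P(ε, Φ(ε)) = O(|ε|^(K+1))`. `root_near`: a root of `P(ε, ·)` near `θ` is close to `Φ(ε)`. -/

namespace Pool.Agent.H98.TE

open Finset

/-- polynomials in the three small parameters -/
abbrev R3 := MvPolynomial (Fin 3) ℝ

/-- a polynomial is bounded, and Lipschitz at `0` -/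
theorem mp_bd (p : R3) : ∃ C : ℝ, 0 ≤ C ∧ ∀ (ε : Fin 3 → ℝ) (ρ : ℝ), (∀ i, |ε i| ≤ ρ) → ρ ≤ 1 →
    |MvPolynomial.eval ε p| ≤ C ∧
    |MvPolynomial.eval ε p - MvPolynomial.eval (0 : Fin 3 → ℝ) p| ≤ C * ρ := by
  induction p using MvPolynomial.induction_on with
  | C a =>
    refine ⟨|a|, abs_nonneg a, fun ε ρ hε hρ => ⟨by simp, ?_⟩⟩
    have h0 : 0 ≤ ρ := (abs_nonneg _).trans (hε 0)
    simp only [MvPolynomial.eval_C, sub_self, abs_zero]
    positivity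
  | add p q hp hq =>
    obtain ⟨C1, h1, h2⟩ := hp
    obtain ⟨C2, h3, h4⟩ := hq
    refine ⟨C1 + C2, by positivity, fun ε ρ hε hρ => ?_⟩
    obtain ⟨h5, h6⟩ := h2 ε ρ hε hρ
    obtain ⟨h7, h8⟩ := h4 ε ρ hε hρ
    rw [map_add, map_add]
    refine ⟨(abs_add_le _ _).trans (add_le_add h5 h7), ?_⟩
    rw [add_sub_add_comm, add_mul]
    exact (abs_add_le _ _).trans (add_le_add h6 h8)
  | mul_X p i hp =>
    obtain ⟨C1, h1, h2⟩ := hp
    refine ⟨C1, h1, fun ε ρ hε hρ => ?_⟩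
    obtain ⟨h5, h6⟩ := h2 ε ρ hε hρ
    rw [map_mul, map_mul, MvPolynomial.eval_X, MvPolynomial.eval_X, abs_mul]
    have h7 : |MvPolynomial.eval ε p| * |ε i| ≤ C1 * ρ := mul_le_mul h5 (hε i) (abs_nonneg _) h1
    refine ⟨h7.trans (mul_le_of_le_one_right h1 hρ), ?_⟩
    have e : MvPolynomial.eval ε p * ε i - MvPolynomial.eval (0 : Fin 3 → ℝ) p * (0 : Fin 3 → ℝ) i =
        MvPolynomial.eval ε p * ε i := by
      simp
    rw [e, abs_mul]
    exact h7

theorem ev_eval (ε : Fin 3 → ℝ) (P : Polynomial R3) (Φ : R3) :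
    MvPolynomial.eval ε (P.eval Φ) = (P.map (MvPolynomial.eval ε)).eval (MvPolynomial.eval ε Φ) := by
  rw [Polynomial.eval_map]
  exact Polynomial.hom_eval₂ P (RingHom.id R3) (MvPolynomial.eval ε) Φ

theorem newton (P : Polynomial R3) (θ : ℝ)
    (h0 : (P.map (MvPolynomial.eval (0 : Fin 3 → ℝ))).eval θ = 0)
    (h1 : (P.map (MvPolynomial.eval (0 : Fin 3 → ℝ))).derivative.eval θ ≠ 0) (K : ℕ) :
    ∃ (Φ : R3) (C : ℝ), 0 ≤ C ∧ MvPolynomial.eval (0 : Fin 3 → ℝ) Φ = θ ∧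
      ∀ (ε : Fin 3 → ℝ) (ρ : ℝ), (∀ i, |ε i| ≤ ρ) → ρ ≤ 1 →
        |MvPolynomial.eval ε (P.eval Φ)| ≤ C * ρ ^ (K + 1) := by
  induction K with
  | zero =>
    obtain ⟨C, hC, h⟩ := mp_bd (P.eval (MvPolynomial.C θ))
    refine ⟨MvPolynomial.C θ, C, hC, by simp, fun ε ρ hε hρ => ?_⟩
    have h2 := (h ε ρ hε hρ).2
    rw [ev_eval 0, MvPolynomial.eval_C, h0, sub_zero] at h2
    simpa using h2
  | succ K ih =>
    obtain ⟨Φ, C, hC, hΦ, h⟩ := ih
    obtain ⟨V, hV⟩ : ∃ V, V = ((P.map (MvPolynomial.eval (0 : Fin 3 → ℝ))).derivative.eval θ)⁻¹ :=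
      ⟨_, rfl⟩
    obtain ⟨E, hE⟩ : ∃ E, E = P.eval Φ := ⟨_, rfl⟩
    obtain ⟨kk, hk⟩ := Polynomial.binomExpansion P Φ (-(MvPolynomial.C V * E))
    obtain ⟨C1, hC1, g1⟩ := mp_bd (1 - MvPolynomial.C V * P.derivative.eval Φ)
    obtain ⟨C2, hC2, g2⟩ := mp_bd kk
    have hE0 : MvPolynomial.eval (0 : Fin 3 → ℝ) E = 0 := by
      rw [hE, ev_eval, hΦ, h0]
    refine ⟨Φ + -(MvPolynomial.C V * E), C * C1 + C2 * (V ^ 2 * C ^ 2), by positivity, ?_, ?_⟩
    · rw [map_add, map_neg, map_mul, hE0, hΦ]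
      simp
    · intro ε ρ hε hρ
      have hρ0 : 0 ≤ ρ := (abs_nonneg _).trans (hε 0)
      have k1 : MvPolynomial.eval (0 : Fin 3 → ℝ) (1 - MvPolynomial.C V * P.derivative.eval Φ) = 0 := by
        rw [map_sub, map_mul, map_one, MvPolynomial.eval_C, ev_eval, hΦ, ← Polynomial.derivative_map,
          hV, inv_mul_cancel₀ h1, sub_self]
      have k2 := (g1 ε ρ hε hρ).2
      rw [k1, sub_zero] at k2
      have k3 := (g2 ε ρ hε hρ).1
      have k4 := h ε ρ hε hρ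
      rw [← hE] at k4
      have k5 : MvPolynomial.eval ε (P.eval (Φ + -(MvPolynomial.C V * E))) =
          MvPolynomial.eval ε E * MvPolynomial.eval ε (1 - MvPolynomial.C V * P.derivative.eval Φ) +
          MvPolynomial.eval ε kk * (V ^ 2 * MvPolynomial.eval ε E ^ 2) := by
        rw [hk, ← hE]
        simp only [map_add, map_mul, map_neg, map_pow, map_sub, map_one, MvPolynomial.eval_C]
        ring
      rw [k5]
      have hp1 : 0 ≤ ρ ^ (K + 1) := pow_nonneg hρ0 _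
      have k6 : |MvPolynomial.eval ε E *
          MvPolynomial.eval ε (1 - MvPolynomial.C V * P.derivative.eval Φ)| ≤
          C * ρ ^ (K + 1) * (C1 * ρ) := by
        rw [abs_mul]
        exact mul_le_mul k4 k2 (abs_nonneg _) (by positivity)
      have k7 : |MvPolynomial.eval ε kk * (V ^ 2 * MvPolynomial.eval ε E ^ 2)| ≤
          C2 * (V ^ 2 * (C * ρ ^ (K + 1)) ^ 2) := by
        rw [abs_mul, abs_mul, abs_pow (MvPolynomial.eval ε E), abs_of_nonneg (sq_nonneg V)]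
        refine mul_le_mul k3 ?_ (by positivity) hC2
        exact mul_le_mul_of_nonneg_left (pow_le_pow_left₀ (abs_nonneg _) k4 2) (sq_nonneg V)
      have k8 : (ρ ^ (K + 1)) ^ 2 ≤ ρ ^ (K + 2) := by
        rw [← pow_mul]
        exact pow_le_pow_of_le_one hρ0 hρ (by omega)
      refine (abs_add_le _ _).trans ((add_le_add k6 k7).trans ?_)
      have k9 : C2 * (V ^ 2 * (C * ρ ^ (K + 1)) ^ 2) ≤ C2 * (V ^ 2 * C ^ 2) * ρ ^ (K + 2) := by
        rw [mul_pow]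
        have : C2 * (V ^ 2 * (C ^ 2 * (ρ ^ (K + 1)) ^ 2)) =
            C2 * (V ^ 2 * C ^ 2) * (ρ ^ (K + 1)) ^ 2 := by ring
        rw [this]
        exact mul_le_mul_of_nonneg_left k8 (by positivity)
      have k10 : C * ρ ^ (K + 1) * (C1 * ρ) = C * C1 * ρ ^ (K + 2) := by ring
      rw [k10]
      have : K + 1 + 1 = K + 2 := by omega
      rw [this, add_mul]
      linarith

/-- the difference quotient of `P(ε, ·)` -/
noncomputable def dq (P : Polynomial R3) (Φ : R3) (z : (Fin 3 → ℝ) × ℝ) : ℝ :=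
  ∑ b ∈ range (P.natDegree + 1), MvPolynomial.eval z.1 (P.coeff b) *
    ∑ i ∈ range b, z.2 ^ i * (MvPolynomial.eval z.1 Φ) ^ (b - 1 - i)

theorem dq_cont (P : Polynomial R3) (Φ : R3) : Continuous (dq P Φ) := by
  unfold dq
  have h : ∀ p : R3, Continuous fun z : (Fin 3 → ℝ) × ℝ => MvPolynomial.eval z.1 p := fun p =>
    (MvPolynomial.continuous_eval p).comp continuous_fst
  refine continuous_finsetSum _ fun b _ => (h _).mul (continuous_finsetSum _ fun i _ => ?_)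
  exact (continuous_snd.pow i).mul ((h Φ).pow _)

theorem dq_eq (P : Polynomial R3) (Φ : R3) (ε : Fin 3 → ℝ) (Z : ℝ) :
    (P.map (MvPolynomial.eval ε)).eval Z - MvPolynomial.eval ε (P.eval Φ) =
      dq P Φ (ε, Z) * (Z - MvPolynomial.eval ε Φ) := by
  rw [ev_eval, Polynomial.eval_eq_sum_range' (n := P.natDegree + 1)
    (lt_of_le_of_lt Polynomial.natDegree_map_le (Nat.lt_succ_self _)),
    Polynomial.eval_eq_sum_range' (n := P.natDegree + 1)
    (lt_of_le_of_lt Polynomial.natDegree_map_le (Nat.lt_succ_self _)), ← sum_sub_distrib]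
  unfold dq
  rw [sum_mul]
  refine sum_congr rfl fun b _ => ?_
  rw [Polynomial.coeff_map, mul_assoc, (Commute.all _ _).geom_sum₂_mul]
  ring

theorem dq_zero (P : Polynomial R3) (Φ : R3) {θ : ℝ}
    (hΦ : MvPolynomial.eval (0 : Fin 3 → ℝ) Φ = θ) :
    dq P Φ (0, θ) = (P.map (MvPolynomial.eval (0 : Fin 3 → ℝ))).derivative.eval θ := by
  unfold dq
  rw [Polynomial.derivative_eval, Polynomial.sum_over_range' _ _ (P.natDegree + 1)
    (lt_of_le_of_lt Polynomial.natDegree_map_le (Nat.lt_succ_self _))]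
  · refine sum_congr rfl fun b _ => ?_
    rw [hΦ, Polynomial.coeff_map, mul_assoc]
    congr 1
    rw [sum_congr rfl (fun i hi => by
      rw [mem_range] at hi
      rw [← pow_add, show i + (b - 1 - i) = b - 1 by omega] :
      ∀ i ∈ range b, θ ^ i * θ ^ (b - 1 - i) = θ ^ (b - 1)), sum_const, card_range, nsmul_eq_mul]
  · intro b
    simp

theorem root_near (P : Polynomial R3) (θ : ℝ)
    (h1 : (P.map (MvPolynomial.eval (0 : Fin 3 → ℝ))).derivative.eval θ ≠ 0) (Φ : R3)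
    (hΦ : MvPolynomial.eval (0 : Fin 3 → ℝ) Φ = θ) :
    ∃ c0 C : ℝ, 0 < c0 ∧ 0 ≤ C ∧ ∀ ε : Fin 3 → ℝ, (∀ i, |ε i| ≤ c0) → ∀ Z : ℝ, |Z - θ| ≤ c0 →
      (P.map (MvPolynomial.eval ε)).eval Z = 0 →
      |Z - MvPolynomial.eval ε Φ| ≤ C * |MvPolynomial.eval ε (P.eval Φ)| := by
  obtain ⟨D, hD⟩ : ∃ D, D = (P.map (MvPolynomial.eval (0 : Fin 3 → ℝ))).derivative.eval θ :=
    ⟨_, rfl⟩
  rw [← hD] at h1
  have hD0 : 0 < |D| := abs_pos.2 h1
  have h2 := Metric.continuous_iff.1 (dq_cont P Φ) (0, θ) (|D| / 2) (by positivity)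
  obtain ⟨c, hc, h3⟩ := h2
  refine ⟨c / 2, 2 / |D|, by positivity, by positivity, fun ε hε Z hZ hP => ?_⟩
  have h4 : dist (ε, Z) ((0 : Fin 3 → ℝ), θ) < c := by
    rw [Prod.dist_eq, max_lt_iff]
    constructor
    · refine lt_of_le_of_lt ((dist_pi_le_iff (by positivity : (0 : ℝ) ≤ c / 2)).2 fun i => ?_)
        (by linarith)
      rw [Real.dist_eq]
      simpa using hε i
    · rw [Real.dist_eq]
      exact lt_of_le_of_lt hZ (by linarith)
  have h5 := h3 (ε, Z) h4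
  rw [dq_zero P Φ hΦ, ← hD, Real.dist_eq] at h5
  have h6 : |D| / 2 ≤ |dq P Φ (ε, Z)| := by
    have h7 : |D| ≤ |dq P Φ (ε, Z) - D| + |dq P Φ (ε, Z)| := by
      have := abs_sub_abs_le_abs_sub D (dq P Φ (ε, Z))
      rw [abs_sub_comm] at this
      linarith
    linarith
  have h8 := dq_eq P Φ ε Z
  rw [hP, zero_sub] at h8
  have h9 : |MvPolynomial.eval ε (P.eval Φ)| =
      |dq P Φ (ε, Z)| * |Z - MvPolynomial.eval ε Φ| := by
    rw [← abs_mul, ← h8, abs_neg]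
  rw [h9]
  have h10 : 1 ≤ 2 / |D| * |dq P Φ (ε, Z)| := by
    rw [div_mul_eq_mul_div, le_div_iff₀ hD0]
    linarith
  calc |Z - MvPolynomial.eval ε Φ| = 1 * |Z - MvPolynomial.eval ε Φ| := (one_mul _).symm
    _ ≤ (2 / |D| * |dq P Φ (ε, Z)|) * |Z - MvPolynomial.eval ε Φ| :=
        mul_le_mul_of_nonneg_right h10 (abs_nonneg _)
    _ = _ := by ring

end Pool.Agent.H98.TE
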